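import Pool.Agent.Lib.MP_d439b2_co.P41.Spec

/-!
# MP_d439b2_co, P41/Cr: the cut-rank of a good cell
-/

set_option autoImplicit false

namespace Pool.Agent.MPd439b2.P41

open Pool.Agent.MPd439b2 Pool.Agent.MPd439b2.Rep Pool.Agent.MPd439b2.ST

theorem tCr : S_Cr := by
  intro V _ G B f w p k q r₀ r₁ j n M I R hE hF hG i hi hI
  obtain ⟨u, hu⟩ := hF.ne i hi
  obtain ⟨x, hx, hMx⟩ := hF.ex i hi
  have hZ : ∀ v ∈ M i, v ∉ B ∧ f v = j := fun v hv => by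
    have h1 : v ∈ Dn G B f j x := hMx ▸ hv
    exact h1.1
  have h1 : H1T.Rw G (M i ∪ KM G B f j (M i)) (M i ∪ KM G B f j (M i))ᶜ ⊆
      insert {b | b ∈ (M i ∪ KM G B f j (M i))ᶜ ∧ G.Adj u b}
        ((fun ρ : Set V => {b | b ∈ (M i ∪ KM G B f j (M i))ᶜ ∧ b ∈ ρ}) '' R) := by
    rintro _ ⟨y, hy, rfl⟩
    rcases hy with hy | hy
    · left
      have key : ∀ b ∈ (M i ∪ KM G B f j (M i))ᶜ, (G.Adj y b ↔ G.Adj u b) := by
        intro b hb
        by_cases hbB : b ∈ B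
        · rcases hG.cst i hi hI b hbB (fun h => hb (Or.inr h)) with h2 | h2
          · exact iff_of_true (h2 y hy).symm (h2 u hu).symm
          · exact iff_of_false (fun h => h2 y hy h.symm) (fun h => h2 u hu h.symm)
        · exact hE.bas.tw y (hZ y hy).1 u (hZ u hu).1 ((hZ y hy).2.trans (hZ u hu).2.symm) b hbB
      ext b
      exact ⟨fun h => ⟨h.1, (key b h.1).1 h.2⟩, fun h => ⟨h.1, (key b h.1).2 h.2⟩⟩
    · right
      obtain ⟨ρ, hρ, h2⟩ := hG.row i hi hI y hy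
      refine ⟨ρ, hρ, ?_⟩
      have key : ∀ b ∈ (M i ∪ KM G B f j (M i))ᶜ, (G.Adj y b ↔ b ∈ ρ) := fun b hb =>
        h2 b (fun h => hb (Or.inl h)) fun h => hb (Or.inr (h ▸ hy))
      ext b
      exact ⟨fun h => ⟨h.1, (key b h.1).2 h.2⟩, fun h => ⟨h.1, (key b h.1).1 h.2⟩⟩
  refine (H1T.rk_le_rows G (M i ∪ KM G B f j (M i)) (M i ∪ KM G B f j (M i))ᶜ).trans ?_
  refine (Set.ncard_le_ncard h1 (Set.toFinite _)).trans ((Set.ncard_insert_le _ _).trans ?_)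
  exact Nat.add_le_add_right (Set.ncard_image_le (Set.toFinite _)) 1

end Pool.Agent.MPd439b2.P41
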