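import Pool.Agent.Lib.MP_d439b2_co.P41.Spec
import Pool.Agent.Lib.MP_d439b2_co.R3.FactC

/-!
# MP_d439b2_co, P41/En: the environment
-/

set_option autoImplicit false

namespace Pool.Agent.MPd439b2.P41

open Pool.Agent.MPd439b2 Pool.Agent.MPd439b2.Rep Pool.Agent.MPd439b2.ST

/-- two stable rails with a co-matching contain `J4` (without linkedness) -/
private theorem en_noR {V : Type} {G : SimpleGraph V} (hJ : ¬ IMS J4 G Set.univ) :
    NoTP G 10 false false true := fun _ _ h => hJ (ims_J4 (HC.chkG_sp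
    (L := [[0, 11], [1], [10], [2, 13], [3, 12], [4, 15], [5, 14], [6, 17], [7, 16], [8, 19],
      [9, 18]]) (sp_of_tp h) (by decide)))

/-- two cliques with a matching contain `J4` (without linkedness) -/
private theorem en_noJ : ∃ n : ℕ, ∀ (V : Type) (G : SimpleGraph V), ¬ IMS J4 G Set.univ →
    NoTP G n true true false := by
  obtain ⟨m, hm⟩ := W.coM 11 0
  refine ⟨m + 1, fun V G hJ a b hab => hJ ?_⟩
  refine ims_univ_iff.mpr (FDAux.indMinor_trans ?_ (FDAux.indMinor_of_indSub hab.sub))
  refine FDAux.indMinor_trans (FDAux.indMinor_of_indSub subFJ) ?_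
  have htri : W.TriFree (PGr (m + 1) true true false)ᶜ := by
    have key : ∀ u v, (PGr (m + 1) true true false)ᶜ.Adj u v → u.1 ≠ v.1 := by
      rintro ⟨_ | _, i⟩ ⟨_ | _, j⟩ h
      · exact absurd (show (PGr (m + 1) true true false).Adj (false, i) (false, j) from
          ⟨fun h' => h.1 (congrArg (Prod.mk false) h'), rfl⟩) h.2
      · exact Bool.false_ne_true
      · exact Bool.false_ne_true.symm
      · exact absurd (show (PGr (m + 1) true true false).Adj (true, i) (true, j) from
          ⟨fun h' => h.1 (congrArg (Prod.mk true) h'), rfl⟩) h.2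
    intro x y z hxy hxz hyz
    have h1 := key x y hxy
    have h2 := key x z hxz
    have h3 := key y z hyz
    revert h1 h2 h3
    cases x.1 <;> cases y.1 <;> cases z.1 <;> decide
  have h := hm _ (PGr (m + 1) true true false)ᶜ FJ _ colFJ htri
    ⟨fun i => (false, ⟨i % (m + 1), Nat.mod_lt _ (by omega)⟩),
      fun i => (true, ⟨i % (m + 1), Nat.mod_lt _ (by omega)⟩), fun i hi j hj => ?_⟩
  · rwa [compl_compl] at h
  · have e1 : i % (m + 1) = i := Nat.mod_eq_of_lt (by omega)
    have e2 : j % (m + 1) = j := Nat.mod_eq_of_lt (by omega)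
    simp only [e1, e2]
    rw [SimpleGraph.compl_adj]
    show ((false, _) ≠ (true, _) ∧ ¬ (_ = _ ↔ false = false)) ↔ _
    simp [Fin.ext_iff]

private theorem en_noPat {V : Type} {G : SimpleGraph V} {m : ℕ}
    (h : NoT {(false, false, false), (true, false, false), (true, true, true)} m G)
    (hJ : NoTP G m true true false) (hR : NoTP G m false false true) : NoPat G m := by
  have h1 : NoTP G m false false false := h (false, false, false) (by simp)
  have h2 : NoTP G m true false false := h (true, false, false) (by simp)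
  have h3 : NoTP G m true true true := h (true, true, true) (by simp)
  intro s t e hst
  cases s <;> cases t <;> cases e
  · exact h1
  · exact hR
  · exact h2.swap
  · exact absurd ⟨Bool.false_ne_true, rfl⟩ hst
  · exact h2
  · exact absurd ⟨Bool.false_ne_true.symm, rfl⟩ hst
  · exact hJ
  · exact h3

/-- **En.**  The environment. -/
theorem tEn (h_Fp : S_Fp) (h_Rf : S_Rf) (h_La : S_La) (h_Fct : ST.S_Fct) (h_Start : ST.S_Start)
    (h_H1 : ST.S_H1) (h_H2 : ST.S_H2) : S_En := by
  intro m
  obtain ⟨nJ, hnJ⟩ := en_noJ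
  obtain ⟨w, p, k, q, hs⟩ := h_Start (max m (max nJ 10))
  obtain ⟨r₁, hr₁⟩ := h_H1 w p k q
  obtain ⟨r₀, hr₀⟩ := h_H2
  refine ⟨w, p, k, q, max r₀ 1, max r₁ 1, fun V _ G hH hJ hT => ?_⟩
  have h302 := h_Fp.2 V G hH
  have hFP := h_Fp.1 V G hH
  have hfcs : Fcs G := h_Fct V G h302 hJ
  have hfac : R3.Facts G := R3.facts2 h302 hJ
  have hNP : NoPat G (max m (max nJ 10)) := by
    refine en_noPat (hT.mono subset_rfl (le_max_left _ _)) ?_ ?_
    · exact (hnJ V G hJ).mono ((le_max_left _ _).trans (le_max_right _ _))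
    · exact (en_noR hJ).mono ((le_max_right _ _).trans (le_max_right _ _))
  obtain ⟨B, f, hB⟩ := hs V G hfac hNP
  have h1 : Hy1 G B f r₁ := hr₁ V G B f hfcs hB
  have h2 : Hy2 G r₀ := hr₀ V G hfcs
  obtain ⟨f', hB', h1', hf'⟩ := h_Rf V G B f w p k q r₁ hB h1
  refine ⟨B, f', hB', ?_, ?_, le_max_right _ _, le_max_right _ _,
    h_La V G B f' w p k q hFP hB' hf'⟩
  · intro x z hT' hx hf hn
    exact h1' x z (hT'.mono (le_max_left _ _)) (fun i hi => hx i (hi.trans_le (le_max_left _ _)))
      (fun i hi j hj => hf i (hi.trans_le (le_max_left _ _)) j (hj.trans_le (le_max_left _ _)))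
      (fun i hi j hj => hn i (hi.trans_le (le_max_left _ _)) j (hj.trans_le (le_max_left _ _)))
  · intro x z Y hT' hY hx hn
    exact h2 x z Y (hT'.mono (le_max_left _ _)) hY
      (fun i hi => hx i (hi.trans_le (le_max_left _ _)))
      (fun i hi j hj => hn i (hi.trans_le (le_max_left _ _)) j (hj.trans_le (le_max_left _ _)))

end Pool.Agent.MPd439b2.P41
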