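import Pool.Agent.Lib.MP_d439b2_co.P41.Spec
import Pool.Agent.Lib.MP_d439b2_co.B.FD

/-!
# `P41/Fp`: `P_4 + P_1` as an induced subgraph, and in `K3:0,1,02`
-/

set_option autoImplicit false

namespace Pool.Agent.MPd439b2.P41

open Pool.Agent.MPd439b2 Pool.Agent.MPd439b2.Rep Pool.Agent.MPd439b2.ST

private theorem fp_sub : IsIndSub H41 K302 := by
  refine ⟨Sum.elim ![Sum.inl 1, Sum.inl 2] ![Sum.inr 1, Sum.inr 2, Sum.inr 0], ?_, ?_⟩
  · intro x y h
    rcases x with x | x <;> rcases y with y | y <;> fin_cases x <;> fin_cases y <;> simp_all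
  · intro x y
    rcases x with x | x <;> rcases y with y | y <;> fin_cases x <;> fin_cases y <;>
      simp [KA]

theorem tFp : S_Fp := by
  refine ⟨?_, ?_⟩
  · intro V G hG a b c d e hab hbc hcd hac hbd nac nad nbd nea neb nec ned
    apply hG
    apply ims_univ_iff.mpr
    apply FDAux.indMinor_of_indSub
    have h1 : a ≠ d := fun h => nac (h ▸ hcd.symm)
    have h2 : e ≠ a := fun h => neb (h ▸ hab)
    have h3 : e ≠ b := fun h => nea (h ▸ hab.symm)
    have h4 : e ≠ c := fun h => ned (h ▸ hcd)
    have h5 : e ≠ d := fun h => nec (h ▸ hcd.symm)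
    have h6 := hab.ne
    have h7 := hbc.ne
    have h8 := hcd.ne
    have nca : ¬ G.Adj c a := fun h => nac h.symm
    have nda : ¬ G.Adj d a := fun h => nad h.symm
    have ndb : ¬ G.Adj d b := fun h => nbd h.symm
    have nae : ¬ G.Adj a e := fun h => nea h.symm
    have nbe : ¬ G.Adj b e := fun h => neb h.symm
    have nce : ¬ G.Adj c e := fun h => nec h.symm
    have nde : ¬ G.Adj d e := fun h => ned h.symm
    have hba := hab.symm
    have hcb := hbc.symm
    have hdc := hcd.symm
    refine ⟨Sum.elim ![b, c] ![a, d, e], ?_, ?_⟩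
    · intro x y h
      rcases x with x | x <;> rcases y with y | y <;> fin_cases x <;> fin_cases y <;>
        simp [h1, h2, h3, h4, h5, h6, h7, h8, hac, hbd, h1.symm, h2.symm, h3.symm, h4.symm,
          h5.symm, h6.symm, h7.symm, h8.symm, hac.symm, hbd.symm] at h ⊢
    · intro x y
      rcases x with x | x <;> rcases y with y | y <;> fin_cases x <;> fin_cases y <;>
        simp [KA, hab, hbc, hcd, hba, hcb, hdc, nac, nad, nbd, nea, neb, nec, ned, nca, nda, ndb,
          nae, nbe, nce, nde]
  · intro V G hG h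
    exact hG (ims_univ_iff.mpr (FDAux.indMinor_trans (FDAux.indMinor_of_indSub fp_sub)
      (ims_univ_iff.mp h)))

end Pool.Agent.MPd439b2.P41
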