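import Pool.Agent.Lib.MP_d439b2_co.P41.Spec

/-!
# MP_d439b2_co, P41/Hr: the rank of a cut after adding the vertices outside `S`
-/

set_option autoImplicit false

namespace Pool.Agent.MPd439b2.P41

open Pool.Agent.MPd439b2 Pool.Agent.MPd439b2.Rep Pool.Agent.MPd439b2.ST

/-- replacing the rows -/
private theorem Hr_rep {V : Type} [Finite V] (D : SimpleGraph V) {X Y Z : Set V}
    (h : ∀ x ∈ X, ∃ z ∈ Z, ∀ y ∈ Y, (D.Adj x y ↔ D.Adj z y)) : LK.rk D X Y ≤ LK.rk D Z Y := by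
  classical
  unfold LK.rk
  apply Submodule.finrank_mono
  apply Submodule.span_mono
  rintro _ ⟨x, hx, rfl⟩
  obtain ⟨z, hz, h1⟩ := h x hx
  refine ⟨z, hz, ?_⟩
  funext y
  unfold LK.row
  by_cases hy : y ∈ Y
  · by_cases h2 : D.Adj x y
    · rw [if_pos ⟨hy, (h1 y hy).1 h2⟩, if_pos ⟨hy, h2⟩]
    · rw [if_neg (fun h => h2 ((h1 y hy).2 h.2)), if_neg (fun h => h2 h.2)]
  · rw [if_neg (fun h => hy h.1), if_neg (fun h => hy h.1)]

/-- few rows -/
private theorem Hr_few {V : Type} [Finite V] (D : SimpleGraph V) {X Y : Set V} (R : Set (Set V))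
    (h : ∀ x ∈ X, ∃ ρ ∈ R, ∀ y ∈ Y, (D.Adj x y ↔ y ∈ ρ)) : LK.rk D X Y ≤ R.ncard := by
  refine (H1T.rk_le_rows D X Y).trans ?_
  have h1 : H1T.Rw D X Y ⊆ (fun ρ : Set V => {b | b ∈ Y ∧ b ∈ ρ}) '' R := by
    rintro _ ⟨x, hx, rfl⟩
    obtain ⟨ρ, hρ, h2⟩ := h x hx
    refine ⟨ρ, hρ, ?_⟩
    ext b
    constructor
    · rintro ⟨hb, hbρ⟩
      exact ⟨hb, (h2 b hb).2 hbρ⟩
    · rintro ⟨hb, hbx⟩
      exact ⟨hb, (h2 b hb).1 hbx⟩
  exact (Set.ncard_le_ncard h1 (Set.toFinite _)).trans (Set.ncard_image_le (Set.toFinite _))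

theorem tHr : S_Hr := by
  intro V _ D S F π R hπ hπS hSF htw hrow A A' hP
  have hAS : A ⊆ S := fun x hx => hP.1 ▸ Or.inl hx
  have hAS' : A' ⊆ S := fun x hx => hP.1 ▸ Or.inr hx
  have mem : ∀ B ⊆ S, ∀ v, v ∈ ON.hat S π B ↔ π v ∈ B := by
    intro B hB v
    constructor
    · rintro (h | h)
      · rw [hπS v (hB h)]
        exact h
      · exact h.2
    · intro h
      by_cases hv : v ∈ S
      · left
        rw [hπS v hv] at h
        exact h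
      · exact Or.inr ⟨hv, h⟩
  have ne : ∀ x y, π x ∈ A → π y ∈ A' → π x ≠ π y := fun x y hx hy h =>
    Set.disjoint_left.1 hP.2 hx (h ▸ hy)
  have ne' : ∀ x y, π x ∈ A' → π y ∈ A → π x ≠ π y := fun x y hx hy h =>
    Set.disjoint_left.1 hP.2 hy (h ▸ hx)
  have nF : ∀ x ∈ S, x ∉ F := fun x hx h => Set.disjoint_left.1 hSF hx h
  have few1 : LK.rk D (ON.hat S π A ∩ F) (ON.hat S π A') ≤ R.ncard := by
    refine Hr_few D R fun x hx => ?_
    obtain ⟨ρ, hρ, h⟩ := hrow x hx.2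
    exact ⟨ρ, hρ, fun y hy => h y (ne' y x ((mem A' hAS' y).1 hy) ((mem A hAS x).1 hx.1))⟩
  have few2 : LK.rk D (ON.hat S π A' ∩ F) (ON.hat S π A) ≤ R.ncard := by
    refine Hr_few D R fun x hx => ?_
    obtain ⟨ρ, hρ, h⟩ := hrow x hx.2
    exact ⟨ρ, hρ, fun y hy => h y (ne y x ((mem A hAS y).1 hy) ((mem A' hAS' x).1 hx.1))⟩
  have main1 : LK.rk D (ON.hat S π A \ F) (ON.hat S π A' \ F) ≤
      LK.rk D A (ON.hat S π A' \ F) := by
    refine Hr_rep D fun x hx => ?_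
    have h1 := (mem A hAS x).1 hx.1
    exact ⟨π x, h1, fun y hy => htw x hx.2 y hy.2 (ne x y h1 ((mem A' hAS' y).1 hy.1))⟩
  have main2 : LK.rk D (ON.hat S π A' \ F) A ≤ LK.rk D A' A := by
    refine Hr_rep D fun x hx => ?_
    have h1 := (mem A' hAS' x).1 hx.1
    refine ⟨π x, h1, fun y hy => htw x hx.2 y (nF y (hAS hy)) (ne' x y h1 ?_)⟩
    rw [hπS y (hAS hy)]
    exact hy
  have e1 : ON.hat S π A = (ON.hat S π A \ F) ∪ (ON.hat S π A ∩ F) := by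
    ext x
    by_cases h : x ∈ F
    · simp [h]
    · simp [h]
  have e2 : ON.hat S π A' = (ON.hat S π A' \ F) ∪ (ON.hat S π A' ∩ F) := by
    ext x
    by_cases h : x ∈ F
    · simp [h]
    · simp [h]
  have u1 := rk_union D (ON.hat S π A \ F) (ON.hat S π A ∩ F) (ON.hat S π A')
  rw [← e1] at u1
  have u2 := rk_union_right D (ON.hat S π A \ F) (ON.hat S π A' \ F) (ON.hat S π A' ∩ F)
  rw [← e2] at u2
  have u3 : LK.rk D (ON.hat S π A \ F) (ON.hat S π A' ∩ F) ≤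
      LK.rk D (ON.hat S π A' ∩ F) (ON.hat S π A) := by
    rw [rk_symm]
    exact rk_mono D (Set.Subset.refl _) Set.sdiff_subset
  have u4 := rk_symm D (ON.hat S π A' \ F) A
  have u5 := rk_symm D A' A
  omega

end Pool.Agent.MPd439b2.P41
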