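import Pool.Agent.Lib.MP_d439b2_co.P41.Spec

/-!
P41/La: the laminar rules for the non-neighbours in `P_4 + P_1`-free graphs.
-/

set_option autoImplicit false

namespace Pool.Agent.MPd439b2.P41

open Pool.Agent.MPd439b2 Pool.Agent.MPd439b2.Rep Pool.Agent.MPd439b2.ST

namespace LaAux

variable {V : Type} {G : SimpleGraph V} {B : Set V} {f : V → ℕ} {w p k q : ℕ}

theorem stb (hb : Bas G B f w p k q) {j : ℕ} {x y : V} (hx : x ∈ Zc B f j) (hy : y ∈ Zc B f j) :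
    ¬ G.Adj x y := hb.stb hx.1 hy.1 (hx.2.trans hy.2.symm)

theorem neB {j : ℕ} {x z : V} (hx : x ∈ B) (hz : z ∈ Zc B f j) : x ≠ z := fun h => hz.1 (h ▸ hx)

/-- one case of `cov` -/
theorem cov1 (hF : FP G) (hb : Bas G B f w p k q) {j : ℕ} {x y u v z : V} (hx : x ∈ B) (hy : y ∈ B)
    (hn : ¬ G.Adj x y) (hne : x ≠ y) (hux : u ∈ Dn G B f j x) (huy : u ∈ Dn G B f j y)
    (hv : v ∈ Zc B f j) (hvx : G.Adj x v) (hvy : G.Adj y v) (hz : z ∈ Dn G B f j x)
    (hzy : z ∉ Dn G B f j y) : False := by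
  have hyz : G.Adj y z := by
    by_contra h
    exact hzy ⟨hz.1, h⟩
  exact hF x v y z u hvx hvy.symm hyz hne (fun h => hz.2 (h ▸ hvx)) hn hz.2 (stb hb hv hz.1)
    (fun h => hux.2 h.symm) (stb hb hux.1 hv) (fun h => huy.2 h.symm) (stb hb hux.1 hz.1)

/-- one case of `mix` -/
theorem mix1 (hF : FP G) (hb : Bas G B f w p k q) {j l : ℕ} (hjl : j ≠ l)
    (hjn : ∀ x ∈ Zc B f j, ∀ y ∈ Zc B f l, ¬ G.Adj x y) {v : V} (hv : v ∈ B) {s s' t t' g : V}
    (hs : s ∈ Zc B f j) (hs' : s' ∈ Zc B f j) (ht : t ∈ Zc B f l) (ht' : t' ∈ Zc B f l)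
    (hvs : ¬ G.Adj v s) (hvs' : G.Adj v s') (hvt : ¬ G.Adj v t) (hvt' : G.Adj v t')
    (hg : g ∉ B) (hgt : G.Adj t g) (hgs : ¬ G.Adj s g) : False := by
  have hgt' : G.Adj t' g := (hb.tw t ht.1 t' ht'.1 (ht.2.trans ht'.2.symm) g hg).1 hgt
  have hgs' : ¬ G.Adj s' g := fun h =>
    hgs ((hb.tw s hs.1 s' hs'.1 (hs.2.trans hs'.2.symm) g hg).2 h)
  have hgv : g ≠ v := fun h => hg (h ▸ hv)
  by_cases h : G.Adj g v
  · exact hF t g v s' s hgt h hvs' (neB hv ht).symm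
      (fun e => hjn s' hs' t ht (e ▸ hgt.symm)) (fun e => hvt e.symm)
      (fun e => hjn s' hs' t ht e.symm) (fun e => hgs' e.symm) (hjn s hs t ht) hgs
      (fun e => hvs e.symm) (stb hb hs hs')
  · exact hF g t' v s' s hgt'.symm hvt'.symm hvs' hgv
      (fun e => hjl (hs'.2.symm.trans (e ▸ ht'.2))) h (fun e => hgs' e.symm)
      (fun e => hjn s' hs' t' ht' e.symm) hgs (hjn s hs t' ht') (fun e => hvs e.symm)
      (stb hb hs hs')

theorem not_cst {v : V} {Y : Set V} (h : ¬ Cst G v Y) :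
    ∃ s ∈ Y, ∃ s' ∈ Y, ¬ G.Adj v s ∧ G.Adj v s' := by
  unfold Cst at h
  push Not at h
  obtain ⟨⟨s, hs, h1⟩, s', hs', h2⟩ := h
  exact ⟨s, hs, s', hs', h1, h2⟩

end LaAux

open LaAux

/-- **La** -/
theorem tLa : S_La := by
  intro V G B f w p k q hF hb hr
  refine ⟨?_, ?_, ?_⟩
  · intro j x hx y hy hxy
    by_contra hcon
    push Not at hcon
    obtain ⟨h1, h2, h3⟩ := hcon
    obtain ⟨z, hz, hzy⟩ := Set.not_subset.1 h1
    obtain ⟨z', hz', hzx⟩ := Set.not_subset.1 h2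
    obtain ⟨u, hux, huy⟩ := Set.not_disjoint_iff.1 h3
    have hyz : G.Adj y z := by
      by_contra h
      exact hzy ⟨hz.1, h⟩
    have hxz' : G.Adj x z' := by
      by_contra h
      exact hzx ⟨hz'.1, h⟩
    exact hF z' x y z u hxz'.symm hxy hyz (neB hy hz'.1).symm (neB hx hz.1)
      (fun h => hz'.2 h.symm) (stb hb hz'.1 hz.1) hz.2 (stb hb hux.1 hz'.1)
      (fun h => hux.2 h.symm) (fun h => huy.2 h.symm) (stb hb hux.1 hz.1)
  · intro j x hx y hy hxy
    by_cases hne : x = y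
    · left
      rw [hne]
    by_contra hcon
    push Not at hcon
    obtain ⟨h1, h2, h3⟩ := hcon
    obtain ⟨u, hux, huy⟩ := Set.not_disjoint_iff.1 h2
    obtain ⟨v, hv, hvn⟩ := Set.not_subset.1 h3
    have hvx : G.Adj x v := by
      by_contra h
      exact hvn (Or.inl ⟨hv, h⟩)
    have hvy : G.Adj y v := by
      by_contra h
      exact hvn (Or.inr ⟨hv, h⟩)
    apply h1
    apply Set.Subset.antisymm
    · intro z hz
      by_contra hzy
      exact cov1 hF hb hx hy hxy hne hux huy hv hvx hvy hz hzy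
    · intro z hz
      by_contra hzx
      exact cov1 hF hb hy hx (fun h => hxy h.symm) (Ne.symm hne) huy hux hv hvy hvx hz hzx
  · intro j l hjl hjn v hv
    by_contra hcon
    push Not at hcon
    obtain ⟨h1, h2⟩ := hcon
    obtain ⟨s, hs, s', hs', hvs, hvs'⟩ := not_cst h1
    obtain ⟨t, ht, t', ht', hvt, hvt'⟩ := not_cst h2
    have hg : ∃ g, g ∉ B ∧ ¬ (G.Adj s g ↔ G.Adj t g) := by
      by_contra hno
      push Not at hno
      exact hjl (hs.2.symm.trans ((hr s hs.1 t ht.1 hno).trans ht.2))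
    obtain ⟨g, hgB, hgst⟩ := hg
    by_cases hgs : G.Adj s g
    · have hgt : ¬ G.Adj t g := fun h => hgst ⟨fun _ => h, fun _ => hgs⟩
      exact mix1 hF hb (Ne.symm hjl) (fun x hx y hy h => hjn y hy x hx h.symm) hv ht ht' hs hs'
        hvt hvt' hvs hvs' hgB hgs hgt
    · have hgt : G.Adj t g := by
        by_contra h
        exact hgst ⟨fun h' => absurd h' hgs, fun h' => absurd h' h⟩
      exact mix1 hF hb hjl hjn hv hs hs' ht ht' hvs hvs' hvt hvt' hgB hgt hgs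

end Pool.Agent.MPd439b2.P41
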