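import Pool.Agent.Lib.MP_d439b2_co.P41.Spec

/-!
# MP_d439b2_co, P41/Lf: representatives of the cells, lifting of layouts (helper88)
-/

set_option autoImplicit false

namespace Pool.Agent.MPd439b2.P41

open Pool.Agent.MPd439b2 Pool.Agent.MPd439b2.Rep Pool.Agent.MPd439b2.ST

namespace LfAux

variable {V : Type} {G : SimpleGraph V} {B : Set V} {f : V → ℕ} {w p k q r₀ r₁ b N : ℕ}
  {n : ℕ → ℕ} {M : ℕ → ℕ → Set V} {I : ℕ → Set ℕ} {R : Set (Set V)}

/-- the members of a family are in the class -/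
theorem sub_Zc (hf : ∀ j, Fam G B f j (n j) (M j)) {j i : ℕ} (hi : i < n j) {x : V}
    (hx : x ∈ M j i) : x ∉ B ∧ f x = j := by
  obtain ⟨y, -, hy⟩ := (hf j).ex i hi
  rw [hy] at hx
  exact hx.1

/-- a vertex is in at most one set -/
theorem uniq (hf : ∀ j, Fam G B f j (n j) (M j)) {j i j' i' : ℕ} (hi : i < n j) (hi' : i' < n j')
    {x : V} (hx : x ∈ M j i) (hx' : x ∈ M j' i') : M j i = M j' i' := by
  have h1 := sub_Zc hf hi hx
  have h2 := sub_Zc hf hi' hx'
  have hj : j = j' := h1.2.symm.trans h2.2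
  subst hj
  by_cases hne : i = i'
  · rw [hne]
  · exact (Set.disjoint_left.1 ((hf j).dj i hi i' hi' hne) hx hx').elim

open Classical in
/-- the representative of a set -/
noncomputable def rp (x : V) (P : Set V) : V := if h : P.Nonempty then h.some else x

theorem rp_mem {x : V} {P : Set V} (h : P.Nonempty) : rp x P ∈ P := by
  unfold rp
  rw [dif_pos h]
  exact h.some_mem

theorem rp_eq {x y : V} {P : Set V} (h : P.Nonempty) : rp x P = rp y P := by
  unfold rp
  rw [dif_pos h, dif_pos h]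

/-- good sets -/
def Gp (n : ℕ → ℕ) (M : ℕ → ℕ → Set V) (I : ℕ → Set ℕ) (P : Set V) : Prop :=
  ∃ j i, i < n j ∧ i ∉ I j ∧ P = M j i

/-- the vertices of `B` in the cell of the set `P` -/
def Kc (G : SimpleGraph V) (B : Set V) (f : V → ℕ) (n : ℕ → ℕ) (M : ℕ → ℕ → Set V)
    (I : ℕ → Set ℕ) (P : Set V) (x : V) : Prop :=
  ∃ j i, i < n j ∧ i ∉ I j ∧ P = M j i ∧ x ∈ KM G B f j (M j i)

open Classical in
/-- the retraction -/
noncomputable def pr (G : SimpleGraph V) (B : Set V) (f : V → ℕ) (n : ℕ → ℕ) (M : ℕ → ℕ → Set V)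
    (I : ℕ → Set ℕ) (x : V) : V :=
  if h : ∃ P, Kc G B f n M I P x then rp x h.choose
  else if h : ∃ P, Gp n M I P ∧ x ∈ P then rp x h.choose else x

end LfAux

open LfAux in
theorem tLf : S_Lf := by
  classical
  intro hRI hLX hLS hHr V _ G B f w p k q r₀ r₁ b N n M I R env sel
  have hf := sel.fam
  set F : Set V := {x | ∃ P, Kc G B f n M I P x} with hF
  set π : V → V := pr G B f n M I with hπ
  have hFB : ∀ x ∈ F, x ∈ B := by
    rintro x ⟨P, j, i, -, -, -, h⟩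
    exact h.1
  have hKG : ∀ P x, Kc G B f n M I P x → Gp n M I P := by
    rintro P x ⟨j, i, h1, h2, h3, -⟩
    exact ⟨j, i, h1, h2, h3⟩
  have hGne : ∀ P, Gp n M I P → P.Nonempty := by
    rintro P ⟨j, i, h1, -, rfl⟩
    exact (hf j).ne i h1
  have hGB : ∀ P, Gp n M I P → ∀ x ∈ P, x ∉ B := by
    rintro P ⟨j, i, h1, -, rfl⟩ x hx
    exact (sub_Zc hf h1 hx).1
  have hGu : ∀ P Q, Gp n M I P → Gp n M I Q → ∀ x, x ∈ P → x ∈ Q → P = Q := by
    rintro P Q ⟨j, i, h1, -, rfl⟩ ⟨j', i', h1', -, rfl⟩ x hx hx'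
    exact uniq hf h1 h1' hx hx'
  -- the values of `π`
  have hπF : ∀ x ∈ F, ∃ P, Kc G B f n M I P x ∧ π x = rp x P := by
    intro x hx
    have hx' : ∃ P, Kc G B f n M I P x := hx
    refine ⟨hx'.choose, hx'.choose_spec, ?_⟩
    show pr G B f n M I x = _
    unfold pr
    rw [dif_pos hx']
  have hπM : ∀ x P, Gp n M I P → x ∈ P → π x = rp x P := by
    intro x P hP hx
    have h1 : ¬ ∃ P, Kc G B f n M I P x := fun h => hGB P hP x hx (hFB x h)
    have h2 : ∃ P, Gp n M I P ∧ x ∈ P := ⟨P, hP, hx⟩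
    show pr G B f n M I x = _
    unfold pr
    rw [dif_neg h1, dif_pos h2, hGu _ P h2.choose_spec.1 hP x h2.choose_spec.2 hx]
  have hπ0 : ∀ x, x ∉ F → (∀ P, Gp n M I P → x ∉ P) → π x = x := by
    intro x hx hx'
    have h1 : ¬ ∃ P, Kc G B f n M I P x := fun h => hx h
    have h2 : ¬ ∃ P, Gp n M I P ∧ x ∈ P := fun h => hx' _ h.choose_spec.1 h.choose_spec.2
    show pr G B f n M I x = _
    unfold pr
    rw [dif_neg h1, dif_neg h2]
  -- representatives are fixed
  have hrep : ∀ x P, Gp n M I P → π (rp x P) = rp x P := by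
    intro x P hP
    have h1 := rp_mem (x := x) (hGne P hP)
    rw [hπM _ P hP h1]
    exact rp_eq (hGne P hP)
  set S : Set V := {x | π x = x} with hS
  have hcases : ∀ x, (π x = x ∧ x ∉ F ∧ ∀ P, Gp n M I P → x ∉ P) ∨
      ∃ P, Gp n M I P ∧ π x = rp x P ∧ (Kc G B f n M I P x ∨ (x ∉ F ∧ x ∈ P)) := by
    intro x
    by_cases hx : x ∈ F
    · obtain ⟨P, hP, hπP⟩ := hπF x hx
      exact Or.inr ⟨P, hKG P x hP, hπP, Or.inl hP⟩
    · by_cases hx' : ∃ P, Gp n M I P ∧ x ∈ P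
      · obtain ⟨P, hP, hxP⟩ := hx'
        exact Or.inr ⟨P, hP, hπM x P hP hxP, Or.inr ⟨hx, hxP⟩⟩
      · exact Or.inl ⟨hπ0 x hx fun P hP hxP => hx' ⟨P, hP, hxP⟩, hx,
          fun P hP hxP => hx' ⟨P, hP, hxP⟩⟩
  have hπS : ∀ x, π x ∈ S := by
    intro x
    rcases hcases x with ⟨h, -⟩ | ⟨P, hP, h, -⟩
    · show π (π x) = π x
      rw [h, h]
    · show π (π x) = π x
      rw [h]
      exact hrep x P hP
  have hSF : Disjoint S F := by
    rw [Set.disjoint_left]
    intro x hx hxF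
    obtain ⟨P, hP, hπP⟩ := hπF x hxF
    have h1 : π x = x := hx
    have h2 := rp_mem (x := x) (hGne P (hKG P x hP))
    rw [← hπP, h1] at h2
    exact hGB P (hKG P x hP) x h2 (hFB x hxF)
  have hOff : Off G B f n M I S := by
    intro x hx j i hi hI hK
    exact Set.disjoint_left.1 hSF hx ⟨M j i, j, i, hi, hI, rfl, hK⟩
  refine ⟨S, hOff, fun k₀ hlay => ?_⟩
  -- twins
  have htw : ∀ v, v ∉ F → ∀ u, u ∉ F → π v ≠ π u → (G.Adj v u ↔ G.Adj (π v) u) := by
    intro v hv u hu hne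
    rcases hcases v with ⟨h, -⟩ | ⟨P, hP, h, h' | ⟨-, hvP⟩⟩
    · rw [h]
    · exact (hv ⟨P, h'⟩).elim
    · have hvP' := rp_mem (x := v) (hGne P hP)
      have huP : u ∉ P := by
        intro huP
        apply hne
        rw [h, hπM u P hP huP]
        exact rp_eq (hGne P hP)
      obtain ⟨j, i, h1, h2, h3⟩ := hP
      rw [h3] at hvP hvP' huP
      rw [h, h3]
      by_cases huB : u ∈ B
      · have huK : u ∉ KM G B f j (M j i) := fun hK => hu ⟨M j i, j, i, h1, h2, rfl, hK⟩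
        rw [SimpleGraph.adj_comm G v u, SimpleGraph.adj_comm G (rp v (M j i)) u]
        rcases (sel.gd j).cst i h1 h2 u huB huK with h4 | h4
        · exact iff_of_true (h4 _ hvP) (h4 _ hvP')
        · exact iff_of_false (h4 _ hvP) (h4 _ hvP')
      · have h4 := sub_Zc hf h1 hvP
        have h5 := sub_Zc hf h1 hvP'
        exact env.bas.tw v h4.1 _ h5.1 (h4.2.trans h5.2.symm) u huB
  -- rows
  have hrow : ∀ x ∈ F, ∃ ρ ∈ R, ∀ v, π v ≠ π x → (G.Adj x v ↔ v ∈ ρ) := by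
    intro x hx
    obtain ⟨P, hP, hπP⟩ := hπF x hx
    have hGP := hKG P x hP
    obtain ⟨j, i, h1, h2, h3, h4⟩ := hP
    obtain ⟨ρ, hρ, h5⟩ := (sel.gd j).row i h1 h2 x h4
    refine ⟨ρ, hρ, fun v hv => h5 v ?_ ?_⟩
    · intro hvM
      apply hv
      rw [hπP, hπM v P hGP (h3 ▸ hvM)]
      exact rp_eq (hGne P hGP)
    · rintro rfl
      exact hv rfl
  have hcut := hHr V G S F π R (fun v _ => hπS v) (fun v hv => hv) hSF htw hrow
  refine hLX hRI k₀ (b + 1) (k₀ + 2 * R.ncard) V G S π (fun v _ => hπS v) (fun v hv => ?_)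
    (fun A A' hA hr => (hcut A A' hA).trans (by omega)) hlay
  -- fibres
  refine hLS (b + 1) V G _ ?_
  by_cases hv' : ∃ P, Gp n M I P ∧ v ∈ P
  · obtain ⟨P, hP, hvP⟩ := hv'
    obtain ⟨j, i, h1, h2, h3⟩ := hP
    refine le_trans (Set.ncard_le_ncard (t := M j i ∪ KM G B f j (M j i)) ?_)
      ((sel.cell j i h1 h2).trans (by omega))
    rintro x (hx | ⟨hxS, hx⟩)
    · rw [Set.mem_singleton_iff.1 hx]
      exact Or.inl (h3 ▸ hvP)
    · have hx' : π x = v := hx
      rcases hcases x with ⟨h, -⟩ | ⟨Q, hQ, h, h'⟩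
      · exact (hxS h).elim
      · have hvQ : v ∈ Q := by
          rw [← hx', h]
          exact rp_mem (hGne Q hQ)
        have hQP : Q = P := hGu Q P hQ ⟨j, i, h1, h2, h3⟩ v hvQ hvP
        rcases h' with ⟨j', i', h1', -, h3', h4'⟩ | ⟨-, hxQ⟩
        · right
          have hj : j' = j := by
            have ha := sub_Zc hf h1' (x := v) (h3' ▸ hvQ)
            have hb := sub_Zc hf h1 (x := v) (h3 ▸ hvP)
            exact ha.2.symm.trans hb.2
          subst hj
          rw [← h3', hQP, h3] at h4'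
          exact h4'
        · left
          rw [← h3, ← hQP]
          exact hxQ
  · refine le_trans (Set.ncard_le_ncard (t := {v}) ?_) (by rw [Set.ncard_singleton]; omega)
    rintro x (hx | ⟨hxS, hx⟩)
    · exact hx
    · have hx' : π x = v := hx
      rcases hcases x with ⟨h, -⟩ | ⟨Q, hQ, h, -⟩
      · exact (hxS h).elim
      · exact (hv' ⟨Q, hQ, by rw [← hx', h]; exact rp_mem (hGne Q hQ)⟩).elim

end Pool.Agent.MPd439b2.P41
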