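import Pool.Agent.Lib.MP_d439b2_co.P41.Spec

/-!
# MP_d439b2_co, P41/Mx: the maximal small sets
-/

set_option autoImplicit false

namespace Pool.Agent.MPd439b2.P41

open Pool.Agent.MPd439b2 Pool.Agent.MPd439b2.Rep Pool.Agent.MPd439b2.ST

theorem tMx : S_Mx := by
  classical
  intro V _ G B f j b hR hb
  set S : Set (Set V) := {D | ∃ y ∈ B, D = Dn G B f j y ∧ D.Nonempty ∧ D.ncard ≤ b} with hS
  have hfin : S.Finite := Set.toFinite _
  have hnd : ∀ D ∈ S, ∀ D' ∈ S, D ⊆ D' ∨ D' ⊆ D ∨ Disjoint D D' := by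
    rintro D ⟨x, hx, rfl, -, hxb⟩ D' ⟨y, hy, rfl, -, hyb⟩
    by_cases hxy : G.Adj x y
    · exact hR.lam j x hx y hy hxy
    · rcases hR.cov j x hx y hy hxy with h | h | h
      · exact Or.inl h.le
      · exact Or.inr (Or.inr h)
      · exfalso
        have h1 := (Set.ncard_le_ncard h (Set.toFinite _)).trans (Set.ncard_union_le _ _)
        omega
  set T : Set (Set V) := {D | Maximal (· ∈ S) D} with hT
  have hTS : ∀ D ∈ T, D ∈ S := fun D hD => hD.prop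
  have hTd : ∀ D ∈ T, ∀ D' ∈ T, D ≠ D' → Disjoint D D' := by
    intro D hD D' hD' hne
    rcases hnd D (hTS D hD) D' (hTS D' hD') with h | h | h
    · exact absurd (hD.eq_of_subset (hTS D' hD') h) hne
    · exact absurd (hD'.eq_of_subset (hTS D hD) h).symm hne
    · exact h
  have e := Finite.equivFin T
  refine ⟨Nat.card T, fun i => if h : i < Nat.card T then (e.symm ⟨i, h⟩ : Set V) else ∅,
    ⟨?_, ?_, ?_⟩, ?_, ?_⟩
  · intro i hi
    simp only [dif_pos hi]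
    obtain ⟨y, hy, -, h2, -⟩ := hTS _ (e.symm ⟨i, hi⟩).2
    exact h2
  · intro i hi
    simp only [dif_pos hi]
    obtain ⟨y, hy, h1, -, -⟩ := hTS _ (e.symm ⟨i, hi⟩).2
    exact ⟨y, hy, h1⟩
  · intro i hi i' hi' hne
    simp only [dif_pos hi, dif_pos hi']
    refine hTd _ (e.symm ⟨i, hi⟩).2 _ (e.symm ⟨i', hi'⟩).2 fun h => hne ?_
    have h1 := e.symm.injective (Subtype.ext h)
    exact congrArg Fin.val h1
  · intro i hi
    simp only [dif_pos hi]
    obtain ⟨y, hy, -, -, h2⟩ := hTS _ (e.symm ⟨i, hi⟩).2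
    exact h2
  · intro y hy hne hyb
    obtain ⟨D, hD, hDm⟩ := hfin.exists_le_maximal (a := Dn G B f j y) ⟨y, hy, rfl, hne, hyb⟩
    refine ⟨(e ⟨D, hDm⟩ : ℕ), (e ⟨D, hDm⟩).2, ?_⟩
    simp only [dif_pos (e ⟨D, hDm⟩).2]
    rw [show (⟨((e ⟨D, hDm⟩ : Fin (Nat.card T)) : ℕ), (e ⟨D, hDm⟩).2⟩ : Fin (Nat.card T)) =
      e ⟨D, hDm⟩ from rfl, Equiv.symm_apply_apply]
    exact hD

end Pool.Agent.MPd439b2.P41
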