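import Pool.Agent.Lib.MP_d439b2_co.ON2.Final

/-!
# MP_d439b2_co, P41/On: Theorem O1 for every graph `H` below `K3:0,1,02` (helper88)

`ON2.red` with `Fr H (JP t)` instead of `Fr K302 (JP t)`: the graph is replaced by an induced subgraph.
-/

set_option autoImplicit false

namespace Pool.Agent.MPd439b2.P41

open Pool.Agent.MPd439b2
open Pool.Agent.MPd439b2.Rep
open Pool.Agent.MPd439b2.W
open Pool.Agent.MPd439b2.A0
open Pool.Agent.MPd439b2.ON
open Pool.Agent.MPd439b2.ON2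

/-- **Theorem O1** as a reduction, for every `H` such that `H`-free graphs are `K3:0,1,02`-free. -/
theorem redH {I : Type} [Finite I] (H : SimpleGraph I)
    (hH : ∀ (V : Type) (G : SimpleGraph V), ¬ IMS H G Set.univ → ¬ IMS K302 G Set.univ)
    {t : ℕ} (T : Set Ty) (t1 : (true, false, false) ∈ T)
    (t2 : (false, false, false) ∈ T) (hB : BLT H (JP t) (insert (true, true, true) T)) :
    BLT H (JP t) T := by
  refine blt_replace (true, true, true) (fun m hm β => ?_) hB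
  obtain ⟨c₀, n₁, hc⟩ := asmTO pts t (m + 4) m (fun c => β (c + 1))
  refine ⟨max n₁ m, fun k => ⟨c₀ + 1, 2 ^ (2 ^ (k + 1 + 2 * m) + (m + 1)) + 1 + 1, ?_⟩⟩
  intro V _ G hG hT link
  have l1 : Link (fun c => β (c + 1)) c₀ Gᶜ := link_co link
  obtain ⟨S, hTw, hLay, hLk⟩ := pts.tw pts.ri pts.lx pts.kx V Gᶜ
  have l2 := hLk _ _ l1
  have inj1 : Function.Injective (Subtype.val : S → V) := Subtype.val_injective
  have c1 : ∀ a b : S, (Gᶜ.induce S)ᶜ.Adj a b ↔ G.Adj a.1 b.1 := fun a b => adj_cc _ inj1 a b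
  have n1 : ¬ IMS K302 (Gᶜ.induce S)ᶜ Set.univ := fun h => hH V G hG.1 (ims_emb _ inj1 c1 h)
  have n2 : ¬ IMS (JP t) (Gᶜ.induce S)ᶜ Set.univ := fun h => hG.2 (ims_emb _ inj1 c1 h)
  have n3 : NoTP (Gᶜ.induce S)ᶜ m true false false := fun a b h =>
    hT _ t1 _ _ (ON2.tp_emb _ inj1 c1 h)
  have n4 : NoTP (Gᶜ.induce S)ᶜ m false false false := fun a b h =>
    hT _ t2 _ _ (ON2.tp_emb _ inj1 c1 h)
  obtain ⟨S₂, hS₂, hL₂⟩ := hc S (Gᶜ.induce S) (hy_of pts n1 n2 n3) hTw (nk_of n4) l2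
  have inj2 : Function.Injective (fun a : S₂ => (a.1 : V)) := fun a b h =>
    Subtype.ext (Subtype.ext h)
  have c2 : ∀ a b : S₂, ((Gᶜ.induce S).induce S₂)ᶜ.Adj a b ↔ G.Adj (a.1 : V) (b.1 : V) :=
    fun a b => adj_cc (fun a : S₂ => (a.1 : V)) inj2 a b
  refine ⟨S₂, inferInstance, ((Gᶜ.induce S).induce S₂)ᶜ, ⟨fun h => hG.1 (ims_emb _ inj2 c2 h),
    fun h => hG.2 (ims_emb _ inj2 c2 h)⟩, ?_, fun hk => ?_⟩
  · rintro τ (rfl | hτ)
    · refine NoTP.mono (le_max_left _ _) ?_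
      intro x y hxy
      have him := hxy.im
      rw [compl_compl] at him
      exact hS₂ (fun i => (x i).1) (fun i => (y i).1) (fun i _ => ⟨(x i).2, (y i).2⟩) him
    · refine NoTP.mono (le_max_right _ _) ?_
      exact fun a b h => hT τ hτ _ _ (ON2.tp_emb _ inj2 c2 h)
  · have k1 := W.layC _ _ _ _ hk
    rw [compl_compl] at k1
    have k2 := hL₂ _ k1
    have k3 := hLay _ k2
    have k4 := W.layC _ _ _ _ k3
    rw [compl_compl] at k4
    exact k4

end Pool.Agent.MPd439b2.P41
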