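import Pool.Agent.Lib.MP_d439b2_co.P41.Spec

/-!
# MP_d439b2_co, P41/R1: the exceptional indices are a stable set
-/

set_option autoImplicit false

namespace Pool.Agent.MPd439b2.P41

open Pool.Agent.MPd439b2 Pool.Agent.MPd439b2.Rep Pool.Agent.MPd439b2.ST

/-- the data of an exceptional index -/
private theorem r1_data {V : Type} {G : SimpleGraph V} {B : Set V} {f : V → ℕ} {j n : ℕ}
    {M : ℕ → Set V} (hR : Rul G B f) (hF : Fam G B f j n M) {i : ℕ} (hi : i < n) {y : V}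
    (hy : y ∈ B) (hyk : y ∉ KM G B f j (M i)) (hc : ¬ Cst G y (M i)) :
    (∃ u, u ∈ Dn G B f j y ∧ u ∈ M i) ∧ (∃ v, v ∈ M i ∧ v ∉ Dn G B f j y) ∧
      Zc B f j ⊆ Dn G B f j y ∪ M i := by
  obtain ⟨x, hx, hMx⟩ := hF.ex i hi
  unfold Cst at hc
  push Not at hc
  obtain ⟨⟨u, hu, hyu⟩, v, hv, hyv⟩ := hc
  have hu' : u ∈ Dn G B f j y := by
    have := hMx ▸ hu
    exact ⟨this.1, hyu⟩
  have hv' : v ∉ Dn G B f j y := fun h => h.2 hyv
  refine ⟨⟨u, hu', hu⟩, ⟨v, hv, hv'⟩, ?_⟩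
  have hxy : ¬ G.Adj x y := by
    intro h
    rcases hR.lam j x hx y hy h with h1 | h1 | h1
    · exact hv' (h1 (hMx ▸ hv))
    · exact hyk ⟨hy, ⟨u, hu'⟩, hMx ▸ h1⟩
    · exact Set.disjoint_left.1 h1 (hMx ▸ hu) hu'
  rcases hR.cov j x hx y hy hxy with h1 | h1 | h1
  · exact absurd (h1 ▸ hMx ▸ hv) hv'
  · exact absurd hu' (Set.disjoint_left.1 h1 (hMx ▸ hu))
  · rw [hMx, Set.union_comm]
    exact h1

/-- **R1.** -/
theorem tR1 : S_R1 := by
  classical
  intro V _ G B f w p k q r₀ r₁ j n M hE hF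
  have hR := hE.rul
  let I : Set ℕ := {i | i < n ∧ ∃ y ∈ B, y ∉ KM G B f j (M i) ∧ ¬ Cst G y (M i)}
  have hfin : I.Finite := (Set.finite_lt_nat n).subset fun i hi => hi.1
  refine ⟨I, hfin, ?_, ?_⟩
  · choose y hy using fun i : I => i.2.2
    have key : ∀ i i' : I, i ≠ i' → y i ≠ y i' ∧ ¬ G.Adj (y i) (y i') := by
      intro i i' hii
      have hne : i.1 ≠ i'.1 := fun h => hii (Subtype.ext h)
      obtain ⟨⟨u, hu, huM⟩, ⟨v, hv, hvD⟩, hc⟩ := r1_data hR hF i.2.1 (hy i).1 (hy i).2.1 (hy i).2.2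
      obtain ⟨⟨u', hu', huM'⟩, ⟨v', hv', hvD'⟩, hc'⟩ :=
        r1_data hR hF i'.2.1 (hy i').1 (hy i').2.1 (hy i').2.2
      have hsub : ∀ l < n, M l ⊆ Zc B f j := by
        intro l hl z hz
        obtain ⟨x, -, hMx⟩ := hF.ex l hl
        exact (hMx ▸ hz : z ∈ Dn G B f j x).1
      have hdj := hF.dj i.1 i.2.1 i'.1 i'.2.1 hne
      have hA : ∀ z ∈ M i'.1, z ∈ Dn G B f j (y i) := fun z hz =>
        (hc (hsub _ i'.2.1 hz)).resolve_right fun h => Set.disjoint_left.1 hdj h hz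
      have hA' : ∀ z ∈ M i.1, z ∈ Dn G B f j (y i') := fun z hz =>
        (hc' (hsub _ i.2.1 hz)).resolve_right fun h => Set.disjoint_left.1 hdj hz h
      have n1 : ¬ Dn G B f j (y i) ⊆ Dn G B f j (y i') := fun h => hvD' (h (hA v' hv'))
      have n2 : ¬ Dn G B f j (y i') ⊆ Dn G B f j (y i) := fun h => hvD (h (hA' v hv))
      have n3 : ¬ Disjoint (Dn G B f j (y i)) (Dn G B f j (y i')) := fun h =>
        Set.disjoint_left.1 h hu (hA' u huM)
      refine ⟨fun h => n1 (h ▸ subset_rfl), fun h => ?_⟩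
      rcases hR.lam j _ (hy i).1 _ (hy i').1 h with h1 | h1 | h1
      · exact n1 h1
      · exact n2 h1
      · exact n3 h1
    have hinj : Function.Injective y := by
      intro i i' h
      by_contra hne
      exact (key i i' hne).1 h
    haveI : Fintype I := hfin.fintype
    have hcard := hE.bas.ns (Finset.univ.image y) (by
      intro x hx
      obtain ⟨i, -, rfl⟩ := Finset.mem_image.1 (Finset.mem_coe.1 hx)
      exact (hy i).1) (by
      intro a ha b hb
      obtain ⟨i, -, rfl⟩ := Finset.mem_image.1 ha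
      obtain ⟨i', -, rfl⟩ := Finset.mem_image.1 hb
      by_cases h : i = i'
      · subst h
        exact G.loopless.irrefl _
      · exact (key i i' h).2)
    rw [Finset.card_image_of_injective _ hinj, Finset.card_univ] at hcard
    rwa [Set.ncard_eq_toFinset_card', Set.toFinset_card]
  · intro i hi hiI y hy hyk
    by_contra hc
    exact hiI ⟨hi, y, hy, hyk, hc⟩

end Pool.Agent.MPd439b2.P41
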