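import Pool.Agent.Lib.MP_d439b2_co.P41.Spec

/-!
# MP_d439b2_co, P41/R2: few rows over `B`
-/

set_option autoImplicit false

namespace Pool.Agent.MPd439b2.P41

open Pool.Agent.MPd439b2 Pool.Agent.MPd439b2.Rep Pool.Agent.MPd439b2.ST

/-- **R2.** -/
theorem tR2 : S_R2 := by
  classical
  intro hGr V _ G B f w p k q r₀ r₁ j n M hE hF a
  obtain ⟨I, N, hI, hIc, -, hNc, h⟩ := hGr (Set V) n r₁
    (fun i => {ρ | ∃ y ∈ KM G B f j (M i), f y = a ∧ nB G B y = ρ}) hE.p1 (by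
    rintro ⟨φ, v, h1, h2⟩
    have hch : ∀ i : ℕ, ∃ x z : V, i < r₁ → x ∈ KM G B f j (M (φ i)) ∧ f x = a ∧
        nB G B x = v i ∧ z ∈ Dn G B f j x := by
      intro i
      obtain ⟨-, y₀, hy₀, -, -⟩ := h1 0 hE.p1
      by_cases hi : i < r₁
      · obtain ⟨-, y, hy, hya, hyv⟩ := h1 i hi
        obtain ⟨z, hz⟩ := hy.2.1
        exact ⟨y, z, fun _ => ⟨hy, hya, hyv, hz⟩⟩
      · exact ⟨y₀, y₀, fun h => absurd h hi⟩
    choose x z hxz using hch
    have hsub : ∀ i < r₁, z i ∈ M (φ i) := fun i hi =>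
      (hxz i hi).1.2.2 (hxz i hi).2.2.2
    have hB : ∀ i < r₁, x i ∈ B ∧ z i ∉ B := fun i hi =>
      ⟨(hxz i hi).1.1, (hxz i hi).2.2.2.1.1⟩
    have hnz : ∀ i < r₁, ∀ i' < r₁, i ≠ i' → G.Adj (x i) (z i') := by
      intro i hi i' hi' hii
      by_contra hno
      have h3 : z i' ∈ Dn G B f j (x i) := ⟨(hxz i' hi').2.2.2.1, hno⟩
      exact Set.disjoint_left.1 (hF.dj _ (h1 i hi).1 _ (h1 i' hi').1 (h2 i hi i' hi' hii).1)
        ((hxz i hi).1.2.2 h3) (hsub i' hi')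
    have hxx : ∀ i < r₁, ∀ i' < r₁, i ≠ i' → x i ≠ x i' := by
      intro i hi i' hi' hii he
      refine (h2 i hi i' hi' hii).2 ?_
      rw [← (hxz i hi).2.2.1, ← (hxz i' hi').2.2.1, he]
    refine hE.h1 x z ⟨?_, hxx, ?_, ?_, ?_, ?_⟩ hB ?_ ?_
    · intro i hi i' hi' he
      exact (hB i' hi').2 (he ▸ (hB i hi).1)
    · intro i hi i' hi' hii he
      exact Set.disjoint_left.1 (hF.dj _ (h1 i hi).1 _ (h1 i' hi').1 (h2 i hi i' hi' hii).1)
        (hsub i hi) (he ▸ hsub i' hi')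
    · intro i hi i' hi' hii
      refine iff_of_true (hE.bas.cl _ (hB i hi).1 _ (hB i' hi').1 ?_ (hxx i hi i' hi' hii)) rfl
      rw [(hxz i hi).2.1, (hxz i' hi').2.1]
    · intro i hi i' hi' hii
      refine iff_of_false (hE.bas.stb (hB i hi).2 (hB i' hi').2 ?_) (by simp)
      rw [(hxz i hi).2.2.2.1.2, (hxz i' hi').2.2.2.1.2]
    · intro i hi i' hi'
      by_cases hii : i = i'
      · subst hii
        exact iff_of_false (hxz i hi).2.2.2.2 (by simp)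
      · exact iff_of_true (hnz i hi i' hi' hii) (by simp [hii])
    · intro i hi i' hi'
      rw [(hxz i hi).2.1, (hxz i' hi').2.1]
    · intro i hi i' hi' hii
      rw [(hxz i hi).2.2.1, (hxz i' hi').2.2.1]
      exact (h2 i hi i' hi' hii).2)
  exact ⟨I, N, hI, hIc, hNc, fun i hi hiI y hy hya => h i hi hiI ⟨y, hy, hya, rfl⟩⟩

end Pool.Agent.MPd439b2.P41
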