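import Pool.Agent.Lib.MP_d439b2_co.P41.Spec

/-!
# MP_d439b2_co, P41/R3: few rows over a class which is complete to the class `j`
-/

set_option autoImplicit false

namespace Pool.Agent.MPd439b2.P41

open Pool.Agent.MPd439b2 Pool.Agent.MPd439b2.Rep Pool.Agent.MPd439b2.ST

theorem tR3 : S_R3 := by
  classical
  intro hGr V _ G B f w p k q r₀ r₁ j n M hE hF a l hc
  obtain ⟨I, N, hI, hIc, -, hNc, hN⟩ := hGr (Set V) n r₀
    (fun i => {ρ | ∃ y ∈ KM G B f j (M i), f y = a ∧ ρ = {z | z ∈ Zc B f l ∧ G.Adj y z}})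
    hE.p0 (by
      rintro ⟨φ, v, h1, h2⟩
      obtain ⟨x₀, -⟩ := (h1 0 hE.p0).2
      have : Nonempty V := ⟨x₀⟩
      choose! x hx hxa hxv using fun i (hi : i < r₀) => (h1 i hi).2
      choose! z hz using fun i (hi : i < r₀) => (hx i hi).2.1
      have hxB : ∀ i < r₀, x i ∈ B := fun i hi => (hx i hi).1
      have hzZ : ∀ i < r₀, z i ∈ Zc B f j := fun i hi => (hz i hi).1
      have hzM : ∀ i < r₀, z i ∈ M (φ i) := fun i hi => (hx i hi).2.2 (hz i hi)
      have hdj : ∀ i < r₀, ∀ i' < r₀, i ≠ i' → Disjoint (M (φ i)) (M (φ i')) := fun i hi i' hi' h =>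
        hF.dj _ (h1 i hi).1 _ (h1 i' hi').1 (h2 i hi i' hi' h).1
      have hne : ∀ i < r₀, ∀ i' < r₀, i ≠ i' → x i ≠ x i' := by
        intro i hi i' hi' h h3
        apply (h2 i hi i' hi' h).2
        rw [hxv i hi, hxv i' hi', h3]
      refine hE.h2 x z (Zc B f l) ⟨?_, hne, ?_, ?_, ?_, ?_⟩ ?_ ?_ ?_
      · intro i hi i' hi' h
        exact (hzZ i' hi').1 (h ▸ hxB i hi)
      · intro i hi i' hi' h h3
        exact Set.disjoint_left.1 (hdj i hi i' hi' h) (hzM i hi) (h3 ▸ hzM i' hi')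
      · intro i hi i' hi' h
        exact iff_of_true (hE.bas.cl _ (hxB i hi) _ (hxB i' hi')
          ((hxa i hi).trans (hxa i' hi').symm) (hne i hi i' hi' h)) rfl
      · intro i hi i' hi' h
        exact iff_of_false (hE.bas.stb (hzZ i hi).1 (hzZ i' hi').1
          ((hzZ i hi).2.trans (hzZ i' hi').2.symm)) (by simp)
      · intro i hi i' hi'
        by_cases h : i = i'
        · subst h
          exact iff_of_false (hz i hi).2 (by simp)
        · refine iff_of_true ?_ (by simp [h])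
          by_contra h3
          exact Set.disjoint_left.1 (hdj i hi i' hi' h) ((hx i hi).2.2 ⟨hzZ i' hi', h3⟩)
            (hzM i' hi')
      · intro y hy y' hy'
        exact hE.bas.stb hy.1 hy'.1 (hy.2.trans hy'.2.symm)
      · intro i hi y hy
        exact ⟨fun h => hy.1 (h ▸ hxB i hi), hc _ (hzZ i hi) y hy⟩
      · intro i hi i' hi' h
        by_contra h3
        push Not at h3
        apply (h2 i hi i' hi' h).2
        rw [hxv i hi, hxv i' hi']
        ext y
        constructor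
        · rintro ⟨hy, hy'⟩
          exact ⟨hy, ((h3 y hy).1 hy'.symm).symm⟩
        · rintro ⟨hy, hy'⟩
          exact ⟨hy, ((h3 y hy).2 hy'.symm).symm⟩)
  exact ⟨I, N, hI, hIc, hNc, fun i hi hiI y hy hya => hN i hi hiI ⟨y, hy, hya, rfl⟩⟩

end Pool.Agent.MPd439b2.P41
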