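import Pool.Agent.Lib.MP_d439b2_co.P41.Spec

/-!
# MP_d439b2_co, P41/Rf: merging twin classes
-/

set_option autoImplicit false

namespace Pool.Agent.MPd439b2.P41

open Pool.Agent.MPd439b2 Pool.Agent.MPd439b2.Rep Pool.Agent.MPd439b2.ST

theorem tRf : S_Rf := by
  classical
  intro V G B f w p k q r hb h1
  set T : V → Set ℕ := fun x => {a | ∃ y, y ∉ B ∧ (∀ z, z ∉ B → (G.Adj x z ↔ G.Adj y z)) ∧ f y = a}
    with hT
  set f' : V → ℕ := fun x => if x ∈ B then f x else sInf (T x) with hf'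
  have fB : ∀ x ∈ B, f' x = f x := fun x hx => if_pos hx
  have fA : ∀ x, x ∉ B → ∃ y, y ∉ B ∧ (∀ z, z ∉ B → (G.Adj x z ↔ G.Adj y z)) ∧ f y = f' x := by
    intro x hx
    have h2 : sInf (T x) ∈ T x := Nat.sInf_mem ⟨f x, x, hx, fun _ _ => Iff.rfl, rfl⟩
    rw [show f' x = sInf (T x) from if_neg hx]
    exact h2
  refine ⟨f', ⟨?_, ?_, ?_, ?_, ?_, hb.ns, hb.nc⟩, ?_, ?_⟩
  · intro x hx
    rw [fB x hx]
    exact hb.fB x hx
  · intro x hx
    obtain ⟨y, hy, -, h2⟩ := fA x hx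
    rw [← h2]
    exact hb.fA y hy
  · intro x hx y hy hxy hne
    rw [fB x hx, fB y hy] at hxy
    exact hb.cl x hx y hy hxy hne
  · intro x hx y hy hxy
    rw [fB x hx, fB y hy] at hxy
    exact hb.ch x hx y hy hxy
  · intro x hx y hy hxy z hz
    obtain ⟨x', hx', h2, h3⟩ := fA x hx
    obtain ⟨y', hy', h4, h5⟩ := fA y hy
    exact (h2 z hz).trans ((hb.tw x' hx' y' hy' (h3.trans (hxy.trans h5.symm)) z hz).trans
      (h4 z hz).symm)
  · intro x z hT hB hf hn
    refine h1 x z hT hB (fun i hi j hj => ?_) hn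
    have h2 := hf i hi j hj
    rw [fB _ (hB i hi).1, fB _ (hB j hj).1] at h2
    exact h2
  · intro x hx y hy hxy
    rw [show f' x = sInf (T x) from if_neg hx, show f' y = sInf (T y) from if_neg hy]
    have h2 : T x = T y := by
      ext a
      constructor
      · rintro ⟨u, hu, h3, h4⟩
        exact ⟨u, hu, fun z hz => (hxy z hz).symm.trans (h3 z hz), h4⟩
      · rintro ⟨u, hu, h3, h4⟩
        exact ⟨u, hu, fun z hz => (hxy z hz).trans (h3 z hz), h4⟩
    rw [h2]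

end Pool.Agent.MPd439b2.P41
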