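import Pool.Agent.Lib.MP_d439b2_co.P41.Spec

/-!
# MP_d439b2_co, P41/Se: the choice of the cells
-/

set_option autoImplicit false

namespace Pool.Agent.MPd439b2.P41

open Pool.Agent.MPd439b2 Pool.Agent.MPd439b2.Rep Pool.Agent.MPd439b2.ST

namespace SeAux

variable {V : Type} {G : SimpleGraph V} {B : Set V} {f : V → ℕ}

/-- the cells are disjoint -/
theorem cell_dj {j n : ℕ} {M : ℕ → Set V} (fam : Fam G B f j n M) {i i' : ℕ} (hi : i < n)
    (hi' : i' < n) (hne : i ≠ i') :
    Disjoint (M i ∪ KM G B f j (M i)) (M i' ∪ KM G B f j (M i')) := by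
  have hM : ∀ i < n, ∀ v ∈ M i, v ∉ B := by
    intro i hi v hv
    obtain ⟨x, -, hx⟩ := fam.ex i hi
    rw [hx] at hv
    exact hv.1.1
  rw [Set.disjoint_left]
  rintro v (h | h) (h' | h')
  · exact Set.disjoint_left.mp (fam.dj i hi i' hi' hne) h h'
  · exact hM i hi v h h'.1
  · exact hM i' hi' v h' h.1
  · obtain ⟨z, hz⟩ := h.2.1
    exact Set.disjoint_left.mp (fam.dj i hi i' hi' hne) (h.2.2 hz) (h'.2.2 hz)

/-- a union of sets with bounded cardinality -/
theorem card_un {T : Type} [Finite T] (w r : ℕ) (S : ℕ → Set T) (h : ∀ a < w, (S a).ncard ≤ r) :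
    {x | ∃ a < w, x ∈ S a}.ncard ≤ w * r := by
  induction w with
  | zero =>
    have : {x : T | ∃ a < 0, x ∈ S a} = ∅ := by
      ext x
      simp
    rw [this]
    simp
  | succ w ih =>
    have h2 := ih (fun a ha => h a (ha.trans (Nat.lt_succ_self w)))
    have h3 := h w (Nat.lt_succ_self w)
    have e : {x : T | ∃ a < w + 1, x ∈ S a} = {x | ∃ a < w, x ∈ S a} ∪ S w := by
      ext x
      simp only [Set.mem_ofPred_eq, Set.mem_union]
      constructor
      · rintro ⟨a, ha, hx⟩
        rcases Nat.lt_succ_iff_lt_or_eq.mp ha with h4 | h4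
        · exact Or.inl ⟨a, h4, hx⟩
        · exact Or.inr (h4 ▸ hx)
      · rintro (⟨a, ha, hx⟩ | hx)
        · exact ⟨a, ha.trans (Nat.lt_succ_self w), hx⟩
        · exact ⟨w, Nat.lt_succ_self w, hx⟩
    rw [e]
    refine (Set.ncard_union_le _ _).trans ?_
    rw [Nat.succ_mul]
    exact Nat.add_le_add h2 h3

end SeAux

open SeAux

/-- **Se** -/
theorem tSe (hRo : S_Ro) (hCr : S_Cr) (hMx : S_Mx) : S_Se := by
  classical
  intro w p k r₀ r₁
  obtain ⟨N₀, R₀, hRo⟩ := hRo w p k r₀ r₁
  refine ⟨N₀ + 1, R₀, R₀ + 1, ?_⟩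
  intro V _ G B f q b env mc
  -- (1) at most one good index has a large cell
  have key : ∀ (j n : ℕ) (M : ℕ → Set V) (I : Set ℕ) (R : Set (Set V)), Fam G B f j n M →
      R.ncard ≤ R₀ → Gd G B f j n M I R → ∀ i < n, ∀ i' < n, i ∉ I → i' ∉ I →
      b < (M i ∪ KM G B f j (M i)).ncard → b < (M i' ∪ KM G B f j (M i')).ncard → i = i' := by
    intro j n M I R fam hR gd i hi i' hi' hiI hiI' hb hb'
    by_contra hne
    have h1 := hCr V G B f w p k q r₀ r₁ j n M I R env fam gd i hi hiI
    rcases mc _ (h1.trans (Nat.succ_le_succ hR)) with h2 | h2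
    · omega
    · have h3 : M i' ∪ KM G B f j (M i') ⊆ (M i ∪ KM G B f j (M i))ᶜ := fun v hv hv' =>
        Set.disjoint_left.mp (cell_dj fam hi hi' hne) hv' hv
      have h4 := Set.ncard_le_ncard h3 (Set.toFinite _)
      omega
  refine ⟨?_, ?_⟩
  · -- (2)
    intro j n M fam hlt
    obtain ⟨I, R, hIf, hI, hR, gd⟩ := hRo V G B f q j n M env fam
    have h1 : ∀ i < n, b < (M i ∪ KM G B f j (M i)).ncard := fun i hi =>
      (hlt i hi).trans_le (Set.ncard_le_ncard Set.subset_union_left (Set.toFinite _))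
    by_contra hcon
    push Not at hcon
    -- two good indices
    have h2 : ((Finset.range n).filter (fun i => i ∉ I)).card ≤ 1 := by
      rw [Finset.card_le_one]
      intro a ha a' ha'
      rw [Finset.mem_filter, Finset.mem_range] at ha ha'
      exact key j n M I R fam hR gd a ha.1 a' ha'.1 ha.2 ha'.2 (h1 a ha.1) (h1 a' ha'.1)
    have h3 : ((Finset.range n).filter (fun i => i ∈ I)).card ≤ N₀ := by
      rw [← Set.ncard_coe_finset]
      refine (Set.ncard_le_ncard ?_ hIf).trans hI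
      intro i hi
      rw [Finset.mem_coe, Finset.mem_filter] at hi
      exact hi.2
    have h4 := Finset.card_filter_add_card_filter_not (s := Finset.range n) (fun i => i ∈ I)
    rw [Finset.card_range] at h4
    omega
  · -- (3)
    have hj : ∀ j : ℕ, ∃ (n : ℕ) (M : ℕ → Set V) (I : Set ℕ) (R : Set (Set V)), R.ncard ≤ R₀ ∧
        Fam G B f j n M ∧ Gd G B f j n M I R ∧ (∀ i < n, (M i).ncard ≤ b) ∧
        (∀ i < n, i ∉ I → (M i ∪ KM G B f j (M i)).ncard ≤ b) ∧ (I.Finite ∧ I.ncard ≤ N₀ + 1) ∧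
        (2 * b < (Zc B f j).ncard → ∀ y ∈ B, (Dn G B f j y).Nonempty →
          (Dn G B f j y).ncard ≤ b → ∃ i < n, Dn G B f j y ⊆ M i) ∧ (p ≤ j → R = ∅) := by
      intro j
      by_cases hb : 2 * b < (Zc B f j).ncard
      · obtain ⟨n, M, fam, hsm, hall⟩ := hMx V G B f j b env.rul hb
        obtain ⟨I, R, hIf, hI, hR, gd⟩ := hRo V G B f q j n M env fam
        let I' : Set ℕ := {i | i < n ∧ i ∉ I ∧ b < (M i ∪ KM G B f j (M i)).ncard}
        have hI'f : I'.Finite := (Set.finite_lt_nat n).subset (fun i hi => hi.1)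
        have hI' : I'.ncard ≤ 1 := by
          rw [Set.ncard_le_one hI'f]
          intro a ha a' ha'
          exact key j n M I R fam hR gd a ha.1 a' ha'.1 ha.2.1 ha'.2.1 ha.2.2 ha'.2.2
        refine ⟨n, M, I ∪ I', R, hR, fam, ⟨?_, ?_⟩, hsm, ?_, ⟨hIf.union hI'f, ?_⟩, fun _ => hall, ?_⟩
        · exact fun i hi hiI => gd.row i hi (fun h => hiI (Or.inl h))
        · exact fun i hi hiI => gd.cst i hi (fun h => hiI (Or.inl h))
        · intro i hi hiI
          by_contra hcon
          push Not at hcon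
          exact hiI (Or.inr ⟨hi, fun h => hiI (Or.inl h), hcon⟩)
        · have := Set.ncard_union_le I I'
          omega
        · intro hpj
          exfalso
          have h0 : Zc B f j = ∅ := by
            ext v
            refine ⟨fun hv => ?_, fun hv => hv.elim⟩
            have h1 := env.bas.fA v hv.1
            rw [hv.2] at h1
            omega
          rw [h0] at hb
          simp at hb
      · refine ⟨0, fun _ => ∅, ∅, ∅, by simp, ⟨fun i hi => absurd hi (Nat.not_lt_zero i),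
          fun i hi => absurd hi (Nat.not_lt_zero i), fun i hi => absurd hi (Nat.not_lt_zero i)⟩,
          ⟨fun i hi => absurd hi (Nat.not_lt_zero i), fun i hi => absurd hi (Nat.not_lt_zero i)⟩,
          fun i hi => absurd hi (Nat.not_lt_zero i), fun i hi => absurd hi (Nat.not_lt_zero i),
          ⟨Set.finite_empty, by simp⟩, fun h => absurd h hb, fun _ => rfl⟩
    choose n M I R hR fam gd hsm hcell hcard hall hemp using hj
    refine ⟨n, M, I, {x | ∃ a < p, x ∈ R a}, card_un p R₀ R (fun a _ => hR a), ?_⟩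
    refine ⟨fam, ?_, hsm, hcell, hcard, hall⟩
    intro j
    have hsub : R j ⊆ {x | ∃ a < p, x ∈ R a} := by
      intro ρ hρ
      by_cases hj : j < p
      · exact ⟨j, hj, hρ⟩
      · rw [hemp j (not_lt.mp hj)] at hρ
        exact hρ.elim
    refine ⟨?_, (gd j).cst⟩
    intro i hi hiI y hy
    obtain ⟨ρ, hρ, h⟩ := (gd j).row i hi hiI y hy
    exact ⟨ρ, hsub hρ, h⟩

end Pool.Agent.MPd439b2.P41
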