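import Pool.Agent.Lib.MP_d439b2_co.P41.Spec

/-!
# MP_d439b2_co, P41/Tp: the thick spiders can be removed
-/

set_option autoImplicit false

namespace Pool.Agent.MPd439b2.P41

open Pool.Agent.MPd439b2 Pool.Agent.MPd439b2.Rep Pool.Agent.MPd439b2.ST

theorem tTp (hEn : S_En) (hSe : S_Se) (hTs : S_Ts) (hRI : ON.S_RI) (hLX : ON.S_LX)
    (hLS : ON.S_LS) (hHr : S_Hr) (hLf : S_Lf) : S_Tp := by
  intro m β
  obtain ⟨w, p, k₀, q, r₀, r₁, hEn⟩ := hEn m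
  obtain ⟨N, R₁, c₁, hSe⟩ := hSe w p k₀ r₀ r₁
  obtain ⟨n₁, hTs⟩ := hTs w p k₀ q (β c₁) N
  refine ⟨n₁, fun k => ⟨c₁, 2 ^ (k + 2 * (p * R₁)) + (β c₁ + 1), fun V _ G hF hT hL => ?_⟩⟩
  obtain ⟨B, f, hE⟩ := hEn V G hF.1 hF.2 hT
  obtain ⟨hFew, n, M, I, R, hR, hSel⟩ := hSe V G B f q (β c₁) hE fun Y hY => hL c₁ le_rfl Y hY
  obtain ⟨S, hOff, hLay⟩ := hLf hRI hLX hLS hHr V G B f w p k₀ q r₀ r₁ (β c₁) N n M I R hE hSel
  refine ⟨S, hTs V G B f r₀ r₁ n M I R hE hFew hSel S hOff, fun h => ?_⟩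
  refine (hLay k h).mono (Nat.add_le_add_right (Nat.pow_le_pow_right (by omega) ?_) _)
  exact Nat.add_le_add_left (Nat.mul_le_mul_left 2 hR) k

end Pool.Agent.MPd439b2.P41
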