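import Pool.Agent.Lib.MP_d439b2_co.P41.Spec

/-!
# MP_d439b2_co, P41/Ts: no large thick spider off the cells
-/

set_option autoImplicit false

namespace Pool.Agent.MPd439b2.P41

open Pool.Agent.MPd439b2 Pool.Agent.MPd439b2.Rep Pool.Agent.MPd439b2.ST

/-- **Ts** -/
theorem tTs : S_Ts := by
  classical
  intro w p k q b N
  refine ⟨k + q + w * p * ((N + 1) * (b + 1) + N + 2 * b + 2) + 1, ?_⟩
  intro V _ G B f r₀ r₁ n M I R env few sel S off c' s' tp'
  have : Fintype V := Fintype.ofFinite V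
  set m₀ := (N + 1) * (b + 1) + N + 2 * b + 2 with hm₀
  set n₁ := k + q + w * p * m₀ + 1 with hn₁
  let c : ℕ → V := fun i => (c' i).1
  let s : ℕ → V := fun i => (s' i).1
  have hcS : ∀ i, c i ∈ S := fun i => (c' i).2
  have cc : ∀ i < n₁, ∀ j < n₁, i ≠ j → G.Adj (c i) (c j) := fun i hi j hj h =>
    (tp'.aa i hi j hj h).mpr rfl
  have ss : ∀ i < n₁, ∀ j < n₁, i ≠ j → ¬ G.Adj (s i) (s j) := fun i hi j hj h h' =>
    absurd ((tp'.bb i hi j hj h).mp h') (by decide)
  have sne : ∀ i < n₁, ∀ j < n₁, i ≠ j → s i ≠ s j := fun i hi j hj h h' =>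
    tp'.ib i hi j hj h (Subtype.ext h')
  have cs : ∀ i < n₁, ∀ j < n₁, (G.Adj (c i) (s j) ↔ i ≠ j) := by
    intro i hi j hj
    have h1 : G.Adj (c i) (s j) ↔ (i = j ↔ true = false) := tp'.ab i hi j hj
    rw [h1]
    simp
  -- the three kinds of indices
  let A : Finset ℕ := Finset.range n₁
  let A1 : Finset ℕ := A.filter (fun i => c i ∉ B)
  let A2 : Finset ℕ := A.filter (fun i => s i ∈ B)
  let A3 : Finset ℕ := A.filter (fun i => c i ∈ B ∧ s i ∉ B)
  have hA1 : A1.card < q := by
    have h1 : (A1.image c).card = A1.card := by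
      refine Finset.card_image_of_injOn ?_
      intro i hi j hj hij
      rw [Finset.mem_coe, Finset.mem_filter, Finset.mem_range] at hi hj
      by_contra hne
      exact (cc i hi.1 j hj.1 hne).ne hij
    rw [← h1]
    refine env.bas.nc _ ?_ ?_
    · intro x hx
      obtain ⟨i, hi, rfl⟩ := Finset.mem_image.mp hx
      exact (Finset.mem_filter.mp hi).2
    · intro x hx y hy hxy
      obtain ⟨i, hi, rfl⟩ := Finset.mem_image.mp hx
      obtain ⟨j, hj, rfl⟩ := Finset.mem_image.mp hy
      exact cc i (Finset.mem_range.mp (Finset.mem_filter.mp hi).1) j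
        (Finset.mem_range.mp (Finset.mem_filter.mp hj).1) (fun h => hxy (by rw [h]))
  have hA2 : A2.card < k := by
    have h1 : (A2.image s).card = A2.card := by
      refine Finset.card_image_of_injOn ?_
      intro i hi j hj hij
      rw [Finset.mem_coe, Finset.mem_filter, Finset.mem_range] at hi hj
      by_contra hne
      exact sne i hi.1 j hj.1 hne hij
    rw [← h1]
    refine env.bas.ns _ ?_ ?_
    · intro x hx
      obtain ⟨i, hi, rfl⟩ := Finset.mem_image.mp (Finset.mem_coe.mp hx)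
      exact (Finset.mem_filter.mp hi).2
    · intro x hx y hy hxy
      obtain ⟨i, hi, rfl⟩ := Finset.mem_image.mp hx
      obtain ⟨j, hj, rfl⟩ := Finset.mem_image.mp hy
      exact ss i (Finset.mem_range.mp (Finset.mem_filter.mp hi).1) j
        (Finset.mem_range.mp (Finset.mem_filter.mp hj).1) (fun h => hxy.ne (by rw [h])) hxy
  have hA3 : w * p * m₀ < A3.card := by
    have h1 : A ⊆ A1 ∪ A2 ∪ A3 := by
      intro i hi
      rw [Finset.mem_union, Finset.mem_union, Finset.mem_filter, Finset.mem_filter, Finset.mem_filter]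
      tauto
    have h2 := Finset.card_le_card h1
    have h3 := Finset.card_union_le (A1 ∪ A2) A3
    have h4 := Finset.card_union_le A1 A2
    have h5 : A.card = n₁ := Finset.card_range n₁
    omega
  -- pigeonhole
  obtain ⟨⟨a, j⟩, haj, hF⟩ := Finset.exists_lt_card_fiber_of_mul_lt_card_of_maps_to
    (s := A3) (t := Finset.range w ×ˢ Finset.range p) (f := fun i => (f (c i), f (s i))) (n := m₀)
    (by
      intro i hi
      rw [Finset.mem_filter] at hi
      rw [Finset.mem_product, Finset.mem_range, Finset.mem_range]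
      exact ⟨env.bas.fB _ hi.2.1, env.bas.fA _ hi.2.2⟩)
    (by rw [Finset.card_product, Finset.card_range, Finset.card_range]; exact hA3)
  set F : Finset ℕ := A3.filter (fun i => (f (c i), f (s i)) = (a, j)) with hFdef
  have hFm : ∀ i ∈ F, i < n₁ ∧ c i ∈ B ∧ s i ∉ B ∧ f (s i) = j := by
    intro i hi
    rw [hFdef, Finset.mem_filter, Finset.mem_filter, Finset.mem_range] at hi
    exact ⟨hi.1.1, hi.1.2.1, hi.1.2.2, congrArg Prod.snd hi.2⟩
  let T : ℕ → Set V := fun i => Dn G B f j (c i)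
  have hsT : ∀ i ∈ F, s i ∈ T i := by
    intro i hi
    obtain ⟨h1, h2, h3, h4⟩ := hFm i hi
    exact ⟨⟨h3, h4⟩, fun h => (cs i h1 i h1).mp h rfl⟩
  have hsT' : ∀ i ∈ F, ∀ i' ∈ F, i ≠ i' → s i' ∉ T i := by
    intro i hi i' hi' hne h
    exact h.2 ((cs i (hFm i hi).1 i' (hFm i' hi').1).mpr hne)
  have hdj : ∀ i ∈ F, ∀ i' ∈ F, i ≠ i' → Disjoint (T i) (T i') := by
    intro i hi i' hi' hne
    rcases env.rul.lam j (c i) (hFm i hi).2.1 (c i') (hFm i' hi').2.1
      (cc i (hFm i hi).1 i' (hFm i' hi').1 hne) with h | h | h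
    · exact absurd (h (hsT i hi)) (hsT' i' hi' i hi hne.symm)
    · exact absurd (h (hsT i' hi')) (hsT' i hi i' hi' hne)
    · exact h
  have hsinj : ∀ F' ⊆ F, ∀ U : Set V, (∀ i ∈ F', s i ∈ U) → F'.card ≤ U.ncard := by
    intro F' hF' U hU
    rw [← Set.ncard_coe_finset F']
    refine Set.ncard_le_ncard_of_injOn s (fun i hi => hU i hi) ?_ (Set.toFinite _)
    intro i hi i' hi' h
    by_contra hne
    exact sne i (hFm i (hF' hi)).1 i' (hFm i' (hF' hi')).1 hne h
  -- (1)
  let F1 : Finset ℕ := F.filter (fun i => b < (T i).ncard)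
  let F2 : Finset ℕ := F.filter (fun i => ¬ b < (T i).ncard)
  have hF12 : F1.card + F2.card = F.card := Finset.card_filter_add_card_filter_not _
  have hF1 : F1.card ≤ N := by
    let e : Fin F1.card ≃ F1 := F1.equivFin.symm
    let M' : ℕ → Set V := fun l => if h : l < F1.card then T (e ⟨l, h⟩) else ∅
    have hM' : ∀ l (h : l < F1.card), M' l = T (e ⟨l, h⟩) := fun l h => dif_pos h
    have heF : ∀ l (h : l < F1.card), (e ⟨l, h⟩ : ℕ) ∈ F := fun l h =>
      (Finset.mem_filter.mp (e ⟨l, h⟩).2).1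
    refine few j F1.card M' ⟨?_, ?_, ?_⟩ ?_
    · intro l hl
      rw [hM' l hl]
      exact ⟨_, hsT _ (heF l hl)⟩
    · intro l hl
      rw [hM' l hl]
      exact ⟨_, (hFm _ (heF l hl)).2.1, rfl⟩
    · intro l hl l' hl' hne
      rw [hM' l hl, hM' l' hl']
      refine hdj _ (heF l hl) _ (heF l' hl') (fun h => hne ?_)
      have h1 := e.injective (Subtype.ext h)
      exact congrArg Fin.val h1
    · intro l hl
      rw [hM' l hl]
      exact (Finset.mem_filter.mp (e ⟨l, hl⟩).2).2
  by_cases hZ : 2 * b < (Zc B f j).ncard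
  · -- (3)
    have hIf := (sel.card j).1
    let J : Finset ℕ := hIf.toFinset.filter (fun h => h < n j)
    let U : Finset V := J.biUnion (fun h => (Set.toFinite (M j h)).toFinset)
    have hJ : J.card ≤ N := by
      refine (Finset.card_filter_le _ _).trans ?_
      rw [← Set.ncard_eq_toFinset_card _ hIf]
      exact (sel.card j).2
    have hU : U.card ≤ N * b := by
      refine (Finset.card_biUnion_le_card_mul _ _ b ?_).trans (Nat.mul_le_mul_right b hJ)
      intro h hh
      rw [← Set.ncard_eq_toFinset_card _ (Set.toFinite (M j h))]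
      exact sel.sm j h (Finset.mem_filter.mp hh).2
    have h2 : F2.card ≤ (U : Set V).ncard := by
      refine hsinj F2 (Finset.filter_subset _ _) _ ?_
      intro i hi
      rw [Finset.mem_filter] at hi
      obtain ⟨h, hh, hsub⟩ := sel.all j hZ (c i) (hFm i hi.1).2.1 ⟨_, hsT i hi.1⟩ (not_lt.mp hi.2)
      have hhI : h ∈ I j := by
        by_contra hhI
        exact off (c i) (hcS i) j h hh hhI ⟨(hFm i hi.1).2.1, ⟨_, hsT i hi.1⟩, hsub⟩
      rw [Finset.mem_coe, Finset.mem_biUnion]
      refine ⟨h, Finset.mem_filter.mpr ⟨(Set.Finite.mem_toFinset _).mpr hhI, hh⟩, ?_⟩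
      rw [Set.Finite.mem_toFinset]
      exact hsub (hsT i hi.1)
    rw [Set.ncard_coe_finset] at h2
    have h3 : N * b ≤ (N + 1) * (b + 1) := Nat.mul_le_mul (by omega) (by omega)
    have h4 : m₀ < F.card := hF
    omega
  · -- (2)
    have h2 : F.card ≤ (Zc B f j).ncard := hsinj F (Finset.Subset.refl _) _ (fun i hi => (hsT i hi).1)
    have h4 : m₀ < F.card := hF
    omega

end Pool.Agent.MPd439b2.P41
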