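import Pool.Agent.Lib.MP_d439b2_co.P41.Cr
import Pool.Agent.Lib.MP_d439b2_co.P41.En
import Pool.Agent.Lib.MP_d439b2_co.P41.Fp
import Pool.Agent.Lib.MP_d439b2_co.P41.Hr
import Pool.Agent.Lib.MP_d439b2_co.P41.La
import Pool.Agent.Lib.MP_d439b2_co.P41.Lf
import Pool.Agent.Lib.MP_d439b2_co.P41.Mx
import Pool.Agent.Lib.MP_d439b2_co.P41.On
import Pool.Agent.Lib.MP_d439b2_co.P41.R1
import Pool.Agent.Lib.MP_d439b2_co.P41.R2
import Pool.Agent.Lib.MP_d439b2_co.P41.R3
import Pool.Agent.Lib.MP_d439b2_co.P41.Rf
import Pool.Agent.Lib.MP_d439b2_co.P41.Ro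
import Pool.Agent.Lib.MP_d439b2_co.P41.Se
import Pool.Agent.Lib.MP_d439b2_co.P41.Tp
import Pool.Agent.Lib.MP_d439b2_co.P41.Ts
import Pool.Agent.Lib.MP_d439b2_co.ST.Final
import Pool.Agent.Lib.MP_d439b2_co.Rep.RowX4

/-!
# MP_d439b2_co, P41: `(P_4 + P_1)`-free graphs, assembly (helper88)

* `tpF`: the thick spiders can be removed.
* `blt41`: bounded layouts for the graphs without thin spiders and without `n K_2`.
* `bp41`: the pair `(P_4 + P_1, co(P_3 + 4 P_2))`, from the removal of the `n K_2` (hypothesis `hN`).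
-/

set_option autoImplicit false

namespace Pool.Agent.MPd439b2.P41

open Pool.Agent.MPd439b2 Pool.Agent.MPd439b2.Rep

/-- **Theorem P** -/
theorem tpF : S_Tp :=
  tTp (tEn tFp tRf tLa ST.tFct ST.startF ST.tH1 (ST.tH2 (R3.rows R3.ram3F)))
    (tSe (tRo tR1 tR2 tR3 ST.tGr) tCr tMx) tTs ON.oRI ON.oLX ON.oLS tHr tLf

theorem k302_of (V : Type) (G : SimpleGraph V) (h : ¬ IMS H41 G Set.univ) :
    ¬ IMS ON2.K302 G Set.univ := tFp.2 V G h

/-- Theorem C -/
theorem tc41 : TC H41 J4 := fun m => by
  obtain ⟨k, hk⟩ := R3.thmC2F m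
  exact ⟨k, fun V _ G hF h1 h2 => hk V G (k302_of V G hF.1) hF.2 h1 h2⟩

/-- no thin spider with three legs -/
theorem killThin : Kill H41 J4 true false false := by
  refine kill_of_model 3 fun V G a b h => Or.inl ?_
  by_contra hcon
  have hFP := tFp.1 V G (fun h' => hcon (ims_univ_iff.mp h'))
  have bb : ∀ i < 3, ∀ j < 3, i ≠ j → ¬ G.Adj (b i) (b j) := fun i hi j hj hij h' =>
    Bool.false_ne_true ((h.bb i hi j hj hij).1 h')
  have ba : ∀ i < 3, ∀ j < 3, i ≠ j → ¬ G.Adj (b j) (a i) := fun i hi j hj hij h' => by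
    have h1 := (h.ab i hi j hj).1 h'.symm
    exact hij (h1.2 rfl)
  refine hFP (b 0) (a 0) (a 1) (b 1) (b 2) ?_ ?_ ?_ ?_ ?_ ?_ ?_ ?_ ?_ ?_ ?_ ?_
  · exact ((h.ab 0 (by omega) 0 (by omega)).2 ⟨fun _ => rfl, fun _ => rfl⟩).symm
  · exact (h.aa 0 (by omega) 1 (by omega) (by omega)).2 rfl
  · exact (h.ab 1 (by omega) 1 (by omega)).2 ⟨fun _ => rfl, fun _ => rfl⟩
  · exact (h.dis 1 (by omega) 0 (by omega)).symm
  · exact h.dis 0 (by omega) 1 (by omega)
  · exact ba 1 (by omega) 0 (by omega) (by omega)
  · exact bb 0 (by omega) 1 (by omega) (by omega)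
  · exact fun h' => ba 0 (by omega) 1 (by omega) (by omega) h'.symm
  · exact bb 2 (by omega) 0 (by omega) (by omega)
  · exact ba 0 (by omega) 2 (by omega) (by omega)
  · exact ba 1 (by omega) 2 (by omega) (by omega)
  · exact bb 2 (by omega) 1 (by omega) (by omega)

/-- all types -/
theorem all_types : (Set.univ : Set Ty) ⊆ insert (true, true, false) (insert (false, false, true)
    (insert (false, true, false) (insert (false, true, true) (insert (true, false, true)
      {(false, false, false), (true, false, false), (true, true, true)})))) := by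
  rintro ⟨_ | _, _ | _, _ | _⟩ - <;> simp

/-- the thick spiders are allowed -/
theorem blt3 : BLT H41 J4 {(false, false, false), (true, false, false), (true, true, true)} := by
  have h0 : BLT H41 J4 (insert (true, true, false) (insert (false, false, true)
    (insert (false, true, false) (insert (false, true, true) (insert (true, false, true)
      {(false, false, false), (true, false, false), (true, true, true)}))))) :=
    (blt_all tc41).mono all_types
  have h1 := blt_kill (killJ H41) h0
  have h2 := blt_kill (killR H41) h1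
  have h3 := blt_swap (by simp) h2
  have h4 := blt_swap (by simp) h3
  refine blt_replace (true, false, true) (fun m hm β => ?_) h4
  obtain ⟨n, hn⟩ := tpF m β
  refine ⟨max n m, fun k => ?_⟩
  obtain ⟨c₀, k', hk⟩ := hn k
  refine ⟨c₀, k', fun V _ G hF hT hL => ?_⟩
  obtain ⟨S, h5, h6⟩ := hk V G hF hT hL
  refine ⟨S, inferInstance, G.induce S, fr_induce S hF, ?_, h6⟩
  rintro τ (rfl | hτ)
  · exact h5.mono (le_max_left _ _)
  · exact (noT_induce S hT τ hτ).mono (le_max_right _ _)

/-- the complements of induced matchings are allowed, too -/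
theorem blt41 : BLT H41 J4 {(false, false, false), (true, false, false)} := by
  refine redH H41 k302_of {(false, false, false), (true, false, false)} (by simp) (by simp) ?_
  refine blt3.mono ?_
  rintro τ (rfl | rfl | rfl) <;> simp

/-- **The pair `(P_4 + P_1, co(P_3 + 4 P_2))`**, from the removal of the induced matchings -/
theorem bl41 (hN : BLT H41 J4 {(false, false, false), (true, false, false)} →
    BLT H41 J4 {(true, false, false)}) : HC.BL H41 J4 := by
  refine blt_empty (blt_kill killThin ?_)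
  refine (hN blt41).mono ?_
  rintro τ rfl
  simp

end Pool.Agent.MPd439b2.P41
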