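import Pool.Agent.Lib.MP_d439b2_co.P41.Spec

/-!
# MP_d439b2_co, P41/Ro: all but boundedly many indices are good
-/

set_option autoImplicit false

namespace Pool.Agent.MPd439b2.P41

open Pool.Agent.MPd439b2 Pool.Agent.MPd439b2.Rep Pool.Agent.MPd439b2.ST

namespace RoAux

/-- the number of sets with given traces -/
theorem card_tr {V : Type} [Finite V] (B : Set V) (f : V → ℕ) (p A b : ℕ)
    (hA : ∀ x, x ∉ B → f x < p) (Φ : Set (Set V)) (Ψ : ℕ → Set (Set V)) (hΦ : Φ.ncard ≤ A)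
    (hΨ : ∀ l < p, (Ψ l).ncard ≤ b) :
    {ρ : Set V | ρ ∩ B ∈ Φ ∧ ∀ l < p, ρ ∩ Zc B f l ∈ Ψ l}.ncard ≤ A * b ^ p := by
  classical
  have : Fintype V := Fintype.ofFinite V
  have hΦf : Φ.Finite := Set.toFinite _
  have hΨf : ∀ l, (Ψ l).Finite := fun l => Set.toFinite _
  let T : Finset (Set V × (Fin p → Set V)) :=
    hΦf.toFinset ×ˢ Fintype.piFinset (fun l : Fin p => (hΨf l.val).toFinset)
  have h1 : {ρ : Set V | ρ ∩ B ∈ Φ ∧ ∀ l < p, ρ ∩ Zc B f l ∈ Ψ l}.ncard ≤ (T : Set (Set V × (Fin p → Set V))).ncard := by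
    refine Set.ncard_le_ncard_of_injOn (fun ρ => (ρ ∩ B, fun l : Fin p => ρ ∩ Zc B f l.val)) ?_ ?_
      (Set.toFinite _)
    · intro ρ hρ
      rw [Finset.mem_coe, Finset.mem_product, Set.Finite.mem_toFinset, Fintype.mem_piFinset]
      exact ⟨hρ.1, fun l => (Set.Finite.mem_toFinset _).mpr (hρ.2 l.val l.isLt)⟩
    · intro ρ _ ρ' _ h
      have h2 : ρ ∩ B = ρ' ∩ B := congrArg Prod.fst h
      have h3 : ∀ l : Fin p, ρ ∩ Zc B f l.val = ρ' ∩ Zc B f l.val := fun l =>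
        congrFun (congrArg Prod.snd h) l
      ext v
      by_cases hv : v ∈ B
      · constructor
        · intro h4
          have h5 : v ∈ ρ ∩ B := ⟨h4, hv⟩
          rw [h2] at h5
          exact h5.1
        · intro h4
          have h5 : v ∈ ρ' ∩ B := ⟨h4, hv⟩
          rw [← h2] at h5
          exact h5.1
      · have hz : v ∈ Zc B f (f v) := ⟨hv, rfl⟩
        constructor
        · intro h4
          have h5 : v ∈ ρ ∩ Zc B f (f v) := ⟨h4, hz⟩
          rw [h3 ⟨f v, hA v hv⟩] at h5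
          exact h5.1
        · intro h4
          have h5 : v ∈ ρ' ∩ Zc B f (f v) := ⟨h4, hz⟩
          rw [← h3 ⟨f v, hA v hv⟩] at h5
          exact h5.1
  refine h1.trans ?_
  rw [Set.ncard_coe_finset, Finset.card_product, Fintype.card_piFinset]
  refine Nat.mul_le_mul ?_ ?_
  · rw [← Set.ncard_eq_toFinset_card]
    exact hΦ
  · calc ∏ l : Fin p, ((hΨf l.val).toFinset).card ≤ ∏ _l : Fin p, b :=
          Finset.prod_le_prod' (fun l _ => by
            rw [← Set.ncard_eq_toFinset_card]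
            exact hΨ l.val l.isLt)
      _ = b ^ p := by rw [Finset.prod_const, Finset.card_univ, Fintype.card_fin]

/-- unions of sets with bounded cardinality -/
theorem card_un {T : Type} (w r : ℕ) (S : ℕ → Set T) (h : ∀ a < w, (S a).Finite ∧ (S a).ncard ≤ r) :
    {x | ∃ a < w, x ∈ S a}.Finite ∧ {x | ∃ a < w, x ∈ S a}.ncard ≤ w * r := by
  classical
  induction w with
  | zero =>
    have : {x : T | ∃ a < 0, x ∈ S a} = ∅ := by
      ext x
      simp
    rw [this]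
    exact ⟨Set.finite_empty, by simp⟩
  | succ w ih =>
    obtain ⟨h1, h2⟩ := ih (fun a ha => h a (ha.trans (Nat.lt_succ_self w)))
    have h3 := h w (Nat.lt_succ_self w)
    have e : {x : T | ∃ a < w + 1, x ∈ S a} = {x | ∃ a < w, x ∈ S a} ∪ S w := by
      ext x
      simp only [Set.mem_ofPred_eq, Set.mem_union]
      constructor
      · rintro ⟨a, ha, hx⟩
        rcases Nat.lt_succ_iff_lt_or_eq.mp ha with h4 | h4
        · exact Or.inl ⟨a, h4, hx⟩
        · exact Or.inr (h4 ▸ hx)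
      · rintro (⟨a, ha, hx⟩ | hx)
        · exact ⟨a, ha.trans (Nat.lt_succ_self w), hx⟩
        · exact ⟨w, Nat.lt_succ_self w, hx⟩
    rw [e]
    refine ⟨h1.union h3.1, (Set.ncard_union_le _ _).trans ?_⟩
    rw [Nat.succ_mul]
    exact Nat.add_le_add h2 h3.2

end RoAux

open RoAux

/-- **Ro** -/
theorem tRo (hR1 : S_R1) (hR2 : S_R2) (hR3 : S_R3) (hGr : ST.S_Gr) : S_Ro := by
  classical
  intro w p k r₀ r₁
  refine ⟨k + w * r₁ + w * (p * r₀) + 1, (w * r₁) * (w * r₀ + 2) ^ p, ?_⟩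
  intro V _ G B f q j n M env fam
  by_cases hn : n ≤ 1
  · refine ⟨{0}, ∅, Set.finite_singleton 0, ?_, ?_, ?_, ?_⟩
    · rw [Set.ncard_singleton]
      omega
    · simp
    · intro i hi hi'
      exact absurd (by omega : i = 0) hi'
    · intro i hi hi'
      exact absurd (by omega : i = 0) hi'
  push Not at hn
  obtain ⟨I₁, hI₁f, hI₁, h1⟩ := hR1 V G B f w p k q r₀ r₁ j n M env fam
  choose I₂ Φ hI₂f hI₂ hΦ h2 using hR2 hGr V G B f w p k q r₀ r₁ j n M env fam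
  have h3' : ∀ a l : ℕ, ∃ (I : Set ℕ) (N : Set (Set V)), I.Finite ∧ I.ncard ≤ r₀ ∧ N.ncard ≤ r₀ ∧
      ((∀ x ∈ Zc B f j, ∀ y ∈ Zc B f l, G.Adj x y) → ∀ i < n, i ∉ I → ∀ y ∈ KM G B f j (M i),
        f y = a → {z | z ∈ Zc B f l ∧ G.Adj y z} ∈ N) := by
    intro a l
    by_cases hC : ∀ x ∈ Zc B f j, ∀ y ∈ Zc B f l, G.Adj x y
    · obtain ⟨I, N, hf, hI, hN, h⟩ := hR3 hGr V G B f w p k q r₀ r₁ j n M env fam a l hC
      exact ⟨I, N, hf, hI.le, hN.le, fun _ => h⟩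
    · exact ⟨∅, ∅, Set.finite_empty, by simp, by simp, fun h => absurd h hC⟩
  choose I₃ Ψ hI₃f hI₃ hΨ h3 using h3'
  -- the sets of indices
  have c2 := card_un w r₁ I₂ (fun a _ => ⟨hI₂f a, (hI₂ a).le⟩)
  have c3' : ∀ a < w, {x | ∃ l < p, x ∈ I₃ a l}.Finite ∧ {x | ∃ l < p, x ∈ I₃ a l}.ncard ≤ p * r₀ :=
    fun a _ => card_un p r₀ (I₃ a) (fun l _ => ⟨hI₃f a l, hI₃ a l⟩)
  have c3 := card_un w (p * r₀) (fun a => {x | ∃ l < p, x ∈ I₃ a l}) c3'
  have c4 := card_un w r₁ Φ (fun a _ => ⟨Set.toFinite _, (hΦ a).le⟩)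
  have c5 : ∀ l, {x | ∃ a < w, x ∈ Ψ a l}.Finite ∧ {x | ∃ a < w, x ∈ Ψ a l}.ncard ≤ w * r₀ :=
    fun l => card_un w r₀ (fun a => Ψ a l) (fun a _ => ⟨Set.toFinite _, hΨ a l⟩)
  refine ⟨I₁ ∪ {x | ∃ a < w, x ∈ I₂ a} ∪ {x | ∃ a < w, ∃ l < p, x ∈ I₃ a l},
    {ρ | ρ ∩ B ∈ {x | ∃ a < w, x ∈ Φ a} ∧ ∀ l < p, ρ ∩ Zc B f l ∈
      insert ∅ (insert (Zc B f l) {x | ∃ a < w, x ∈ Ψ a l})}, ?_, ?_, ?_, ?_, ?_⟩
  · exact (hI₁f.union c2.1).union c3.1
  · have e1 := Set.ncard_union_le (I₁ ∪ {x | ∃ a < w, x ∈ I₂ a}) {x | ∃ a < w, ∃ l < p, x ∈ I₃ a l}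
    have e2 := Set.ncard_union_le I₁ {x | ∃ a < w, x ∈ I₂ a}
    have e3 : {x | ∃ a < w, ∃ l < p, x ∈ I₃ a l}.ncard ≤ w * (p * r₀) := c3.2
    have e4 := c2.2
    omega
  · refine card_tr B f p _ _ env.bas.fA _ _ c4.2 (fun l _ => ?_)
    have e1 := Set.ncard_insert_le (∅ : Set V) (insert (Zc B f l) {x | ∃ a < w, x ∈ Ψ a l})
    have e2 := Set.ncard_insert_le (Zc B f l) {x | ∃ a < w, x ∈ Ψ a l}
    have e3 := (c5 l).2
    omega
  · intro i hi hiI y hy
    have hi1 : i ∉ I₁ := fun h => hiI (Or.inl (Or.inl h))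
    have hi2 : ∀ a < w, i ∉ I₂ a := fun a ha h => hiI (Or.inl (Or.inr ⟨a, ha, h⟩))
    have hi3 : ∀ a < w, ∀ l < p, i ∉ I₃ a l := fun a ha l hl h => hiI (Or.inr ⟨a, ha, l, hl, h⟩)
    obtain ⟨hyB, ⟨d, hdZ, hdy⟩, hyM⟩ := id hy
    have hfy : f y < w := env.bas.fB y hyB
    -- an element of the class which is adjacent to `y`
    have hex : ∃ e ∈ Zc B f j, G.Adj y e := by
      obtain ⟨i', hi', hne⟩ : ∃ i' < n, i' ≠ i := by
        by_cases h0 : i = 0
        · exact ⟨1, by omega, by omega⟩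
        · exact ⟨0, by omega, fun h => h0 h.symm⟩
      obtain ⟨e, he⟩ := fam.ne i' hi'
      obtain ⟨x', -, hx'⟩ := fam.ex i' hi'
      have he' : e ∈ Dn G B f j x' := hx' ▸ he
      refine ⟨e, he'.1, ?_⟩
      by_contra hna
      have h4 : e ∈ M i := hyM ⟨he'.1, hna⟩
      exact Set.disjoint_left.mp (fam.dj i' hi' i hi hne) he h4
    let ρ : Set V := nB G B y ∪ {v | v ∉ B ∧ f v ≠ j ∧ G.Adj y v} ∪ Zc B f j
    have hρB : ρ ∩ B = nB G B y := by
      ext v
      constructor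
      · rintro ⟨(h | h) | h, hv⟩
        · exact h
        · exact absurd hv h.1
        · exact absurd hv h.1
      · intro h
        exact ⟨Or.inl (Or.inl h), h.1⟩
    have hρl : ∀ l, l ≠ j → ρ ∩ Zc B f l = {z | z ∈ Zc B f l ∧ G.Adj y z} := by
      intro l hl
      ext v
      constructor
      · rintro ⟨(h | h) | h, hv⟩
        · exact absurd h.1 hv.1
        · exact ⟨hv, h.2.2⟩
        · exact absurd (hv.2.symm.trans h.2) hl
      · rintro ⟨hv, h⟩
        exact ⟨Or.inl (Or.inr ⟨hv.1, fun e => hl (hv.2.symm.trans e), h⟩), hv⟩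
    refine ⟨ρ, ⟨?_, ?_⟩, ?_⟩
    · rw [hρB]
      exact ⟨f y, hfy, h2 (f y) i hi (hi2 _ hfy) y hy rfl⟩
    · intro l hl
      by_cases hlj : l = j
      · subst hlj
        have e : ρ ∩ Zc B f l = Zc B f l := Set.inter_eq_right.mpr (fun v hv => Or.inr hv)
        rw [e]
        exact Or.inr (Or.inl rfl)
      · rw [hρl l hlj]
        by_cases hC : ∀ x ∈ Zc B f j, ∀ y ∈ Zc B f l, G.Adj x y
        · exact Or.inr (Or.inr ⟨f y, hfy, h3 (f y) l hC i hi (hi3 _ hfy l hl) y hy rfl⟩)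
        · push Not at hC
          obtain ⟨x₀, hx₀, y₀, hy₀, hna⟩ := hC
          have hac : ∀ x ∈ Zc B f j, ∀ y ∈ Zc B f l, ¬ G.Adj x y := by
            intro x hx y' hy' hadj
            have h5 : G.Adj x₀ y' := (env.bas.tw x hx.1 x₀ hx₀.1 (hx.2.trans hx₀.2.symm) y' hy'.1).mp hadj
            have h6 : G.Adj y₀ x₀ := (env.bas.tw y' hy'.1 y₀ hy₀.1 (hy'.2.trans hy₀.2.symm) x₀ hx₀.1).mp h5.symm
            exact hna h6.symm
          rcases env.rul.mix j l (Ne.symm hlj) hac y hyB with h5 | h5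
          · exfalso
            obtain ⟨e, he, hye⟩ := hex
            rcases h5 with h5 | h5
            · exact hdy (h5 d hdZ)
            · exact h5 e he hye
          · rcases h5 with h5 | h5
            · right
              left
              ext z
              exact ⟨fun h => h.1, fun h => ⟨h, h5 z h⟩⟩
            · left
              ext z
              exact ⟨fun h => absurd h.2 (h5 z h.1), fun h => h.elim⟩
    · intro v hvM hvy
      constructor
      · intro hadj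
        by_cases hvB : v ∈ B
        · exact Or.inl (Or.inl ⟨hvB, Or.inr hadj⟩)
        · by_cases hvj : f v = j
          · exact Or.inr ⟨hvB, hvj⟩
          · exact Or.inl (Or.inr ⟨hvB, hvj, hadj⟩)
      · rintro ((h | h) | h)
        · rcases h.2 with h | h
          · exact absurd h hvy
          · exact h
        · exact h.2.2
        · by_contra hna
          exact hvM (hyM ⟨h, hna⟩)
  · intro i hi hiI y hyB hyK
    exact h1 i hi (fun h => hiI (Or.inl (Or.inl h))) y hyB hyK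

end Pool.Agent.MPd439b2.P41
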