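import Pool.Agent.Lib.MP_d439b2_co.ST.Spec
import Pool.Agent.Lib.MP_d439b2_co.ON2.Spec
import Pool.Agent.Lib.MP_d439b2_co.X3.H1T.Base

/-!
# MP_d439b2_co, P41: removing the thick spiders from `(P_4 + P_1)`-free graphs (helper88, note 3049)

`P41 = P_4 + P_1` is an induced subgraph of `K3:0,1,02`.  `G` is `P41`-free and `J_4`-free, without large patterns
except for thick spiders; `ST/Start` gives `B` (cliques with nested closed neighbourhoods in `B`) and the classes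
outside `B` (stable, twins with respect to `Bᶜ`).  `Zc B f j` = the class `j` outside `B`, `Dn G B f j x` = the
NON-neighbours of `x` in this class, `KM G B f j M` = the vertices `y` of `B` with `∅ ≠ Dn y ⊆ M`.  For a family `M i`
of disjoint sets of the form `Dn x` (`Fam`) all but boundedly many `i` are good (`Gd`): the vertices of
`B` outside `KM (M i)` are constant on `M i`, and the vertices of `KM (M i)` have boundedly many rows outside `M i`.

Every `S_X` is a statement to be proved in its own file `P41/X.lean`, `theorem tX (used statements) : S_X`; the docstring contains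
the complete proof.
-/

set_option autoImplicit false

namespace Pool.Agent.MPd439b2.P41

open Pool.Agent.MPd439b2 Pool.Agent.MPd439b2.Rep Pool.Agent.MPd439b2.ST

/-- `P_4 + P_1`: the path `inr 0, inl 0, inl 1, inr 1` and the vertex `inr 2` -/
abbrev H41 : SimpleGraph (Fin 2 ⊕ Fin 3) := KA 2 3 ![{0}, {1}, ∅]

/-- `K3:0,1,02` -/
abbrev K302 : SimpleGraph (Fin 3 ⊕ Fin 3) := KA 3 3 ![{0}, {1}, {0, 2}]

/-- no induced `P_4 + P_1` (path `a b c d`, other vertex `e`) -/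
def FP {V : Type} (G : SimpleGraph V) : Prop := ∀ a b c d e : V, G.Adj a b → G.Adj b c → G.Adj c d →
  a ≠ c → b ≠ d → ¬ G.Adj a c → ¬ G.Adj a d → ¬ G.Adj b d → ¬ G.Adj e a → ¬ G.Adj e b →
  ¬ G.Adj e c → ¬ G.Adj e d → False

section defs

variable {V : Type} (G : SimpleGraph V) (B : Set V) (f : V → ℕ)

/-- the class `j` outside `B` -/
def Zc (j : ℕ) : Set V := {z | z ∉ B ∧ f z = j}

/-- the non-neighbours of `x` in the class `j` -/
def Dn (j : ℕ) (x : V) : Set V := {z | z ∈ Zc B f j ∧ ¬ G.Adj x z}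

/-- the vertices of `B` which have a non-neighbour in the class `j`, and all these non-neighbours are in `M` -/
def KM (j : ℕ) (M : Set V) : Set V := {y | y ∈ B ∧ (Dn G B f j y).Nonempty ∧ Dn G B f j y ⊆ M}

/-- the three rules for the non-neighbours, in `P41`-free graphs -/
structure Rul : Prop where
  lam : ∀ j, ∀ x ∈ B, ∀ y ∈ B, G.Adj x y →
    Dn G B f j x ⊆ Dn G B f j y ∨ Dn G B f j y ⊆ Dn G B f j x ∨
      Disjoint (Dn G B f j x) (Dn G B f j y)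
  cov : ∀ j, ∀ x ∈ B, ∀ y ∈ B, ¬ G.Adj x y → Dn G B f j x = Dn G B f j y ∨
    Disjoint (Dn G B f j x) (Dn G B f j y) ∨ Zc B f j ⊆ Dn G B f j x ∪ Dn G B f j y
  mix : ∀ j l, j ≠ l → (∀ x ∈ Zc B f j, ∀ y ∈ Zc B f l, ¬ G.Adj x y) →
    ∀ v ∈ B, Cst G v (Zc B f j) ∨ Cst G v (Zc B f l)

/-- everything that is used -/
structure Env (w p k q r₀ r₁ : ℕ) : Prop where
  bas : Bas G B f w p k q
  h1 : Hy1 G B f r₁
  h2 : Hy2 G r₀
  p0 : 1 ≤ r₀
  p1 : 1 ≤ r₁
  rul : Rul G B f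

/-- a family of disjoint sets of non-neighbours in the class `j` -/
structure Fam (j n : ℕ) (M : ℕ → Set V) : Prop where
  ne : ∀ i < n, (M i).Nonempty
  ex : ∀ i < n, ∃ x ∈ B, M i = Dn G B f j x
  dj : ∀ i < n, ∀ i' < n, i ≠ i' → Disjoint (M i) (M i')

/-- the indices outside `I` are good: the rows of `KM (M i)` outside `M i` are in `R`, and the other vertices of `B` are
constant on `M i` -/
structure Gd (j n : ℕ) (M : ℕ → Set V) (I : Set ℕ) (R : Set (Set V)) : Prop where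
  row : ∀ i < n, i ∉ I → ∀ y ∈ KM G B f j (M i), ∃ ρ ∈ R, ∀ v, v ∉ M i → v ≠ y →
    (G.Adj y v ↔ v ∈ ρ)
  cst : ∀ i < n, i ∉ I → ∀ y ∈ B, y ∉ KM G B f j (M i) → Cst G y (M i)

/-- the families `M j` of the maximal sets with at most `b` elements, for all classes `j` -/
structure Sel (b N : ℕ) (n : ℕ → ℕ) (M : ℕ → ℕ → Set V) (I : ℕ → Set ℕ) (R : Set (Set V)) :
    Prop where
  fam : ∀ j, Fam G B f j (n j) (M j)
  gd : ∀ j, Gd G B f j (n j) (M j) (I j) R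
  sm : ∀ j, ∀ i < n j, (M j i).ncard ≤ b
  cell : ∀ j, ∀ i < n j, i ∉ I j → (M j i ∪ KM G B f j (M j i)).ncard ≤ b
  card : ∀ j, (I j).Finite ∧ (I j).ncard ≤ N
  all : ∀ j, 2 * b < (Zc B f j).ncard → ∀ y ∈ B, (Dn G B f j y).Nonempty →
    (Dn G B f j y).ncard ≤ b → ∃ i < n j, Dn G B f j y ⊆ M j i

/-- `S` does not meet the cells of the good indices -/
def Off (n : ℕ → ℕ) (M : ℕ → ℕ → Set V) (I : ℕ → Set ℕ) (S : Set V) : Prop :=
  ∀ x ∈ S, ∀ j, ∀ i < n j, i ∉ I j → x ∉ KM G B f j (M j i)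

/-- at most `N` disjoint sets `Dn x` of one class have more than `b` elements -/
def Few (b N : ℕ) : Prop := ∀ (j n : ℕ) (M : ℕ → Set V), Fam G B f j n M →
  (∀ i < n, b < (M i).ncard) → n ≤ N

end defs

/-! ## 1. The rules -/

/-- **Fp** (30 lines).  `P41` as an induced subgraph, `P41` in `K3:0,1,02`.

Proof. FIRST: the map `inl 0 ↦ b`, `inl 1 ↦ c`, `inr 0 ↦ a`, `inr 1 ↦ d`, `inr 2 ↦ e` is injective (`a ≠ d` as `c ~ d` and not `a ~ c`; `e ≠ a` as `a ~ b`, not `e ~ b`; etc.) and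
preserves adjacency: `IsIndSub H41 G` (`FDAux.indMinor_of_indSub`, `ims_univ_iff`; see `bull_sub` in `F9/BaseP.lean` for `IsIndSub` of a `KA`).  SECOND: the map `inl 0 ↦ inl 1`, `inl 1 ↦ inl 2`, `inr 0 ↦ inr 1`,
`inr 1 ↦ inr 2`, `inr 2 ↦ inr 0` is an induced subgraph `H41` of `K3:0,1,02` (`fin_cases`, `simp`), and `FDAux.indMinor_trans`. -/
def S_Fp : Prop := (∀ (V : Type) (G : SimpleGraph V), ¬ IMS H41 G Set.univ → FP G) ∧
  ∀ (V : Type) (G : SimpleGraph V), ¬ IMS H41 G Set.univ → ¬ IMS K302 G Set.univ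

/-- **Rf** (60 lines).  Merging twin classes.

Proof. For `x ∉ B` let `T x = {f y | y ∉ B ∧ ∀ z ∉ B, (G.Adj x z ↔ G.Adj y z)}` (contains `f x`), `f' x = sInf (T x)`; for `x ∈ B` let `f' x = f x`.  `x, y ∉ B` with the same neighbours outside `B` have `T x = T y`, so `f' x = f' y`.
`Bas` for `f'`: `fB`, `cl`, `ch` are about `x ∈ B`; `fA`: `f' x ∈ T x` (`Nat.sInf_mem`) is some `f y`, `y ∉ B`; `tw`: `f' x = f' y` with `x, y ∉ B`: `f' x = f x'`, `f' y = f y'` where `x'` is a twin of `x` and `y'` of `y` and `f x' = f y'`, so `x'`, `y'`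
are twins (`Bas.tw`); `ns`, `nc` do not depend on `f`.  `Hy1` only uses `f` on `B`. -/
def S_Rf : Prop := ∀ (V : Type) (G : SimpleGraph V) (B : Set V) (f : V → ℕ) (w p k q r : ℕ),
  Bas G B f w p k q → Hy1 G B f r → ∃ f' : V → ℕ, Bas G B f' w p k q ∧ Hy1 G B f' r ∧
    ∀ x, x ∉ B → ∀ y, y ∉ B → (∀ z, z ∉ B → (G.Adj x z ↔ G.Adj y z)) → f' x = f' y

/-- **La** (100 lines).  The rules for the non-neighbours.

Proof. `lam`: otherwise there are `z ∈ Dn x \ Dn y`, `z' ∈ Dn y \ Dn x`, `u ∈ Dn x ∩ Dn y` (all in one class, which is stable: `Bas.stb`): `FP` for the path `z', x, y, z` and the vertex `u`.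
`cov`: `x = y`: clear.  Otherwise suppose that the three cases fail: there are `u ∈ Dn x ∩ Dn y`, `v ∈ Zc j` adjacent to `x` and `y`, and an element in exactly one of `Dn x`, `Dn y`, say `z ∈ Dn x`, `z ∉ Dn y`: `FP` for the path `x, v, y, z` and `u`
(the other case is symmetric).
`mix`: suppose `v ∈ B` is not constant on both classes: `s, s' ∈ Zc j`, `t, t' ∈ Zc l` with `v` not adjacent to `s`, `t`, adjacent to `s'`, `t'`.  As `f s = j ≠ l = f t`, by `hr` there is `g ∉ B` adjacent to exactly one of `s`, `t`.  By symmetry (exchange `j` and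
`l`; use an auxiliary lemma for one case) let `g ~ t`, not `g ~ s`; by `Bas.tw` (and symmetry of `G.Adj`) `g ~ t'`, not `g ~ s'` (`tw` for `s, s'` and `z = g`).  If not `g ~ v`: `FP` for the path `g, t', v, s'` and the vertex `s`.  If `g ~ v`: `FP` for the path `t, g, v, s'` and the vertex
`s`.  (`s, s', t, t'` are pairwise not adjacent; `g ≠ s'` as `g ~ t`, `s' ≁ t`.) -/
def S_La : Prop := ∀ (V : Type) (G : SimpleGraph V) (B : Set V) (f : V → ℕ) (w p k q : ℕ), FP G →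
  Bas G B f w p k q →
  (∀ x, x ∉ B → ∀ y, y ∉ B → (∀ z, z ∉ B → (G.Adj x z ↔ G.Adj y z)) → f x = f y) → Rul G B f

/-- **En** (80 lines).  The environment.  (Uses `S_Fp`, `S_Rf`, `S_La`, `ST.S_Fct`, `ST.S_Start`, `ST.S_H1`, `ST.S_H2`; theorems of `R3` and `Rep`.)

Proof. `G` is `K302`-free by `S_Fp`: `Fcs G` (`S_Fct`) and `R3.Facts G` (see the assembly of `R3`: `R3.facts2` or the theorem used in `R3/Final.lean`, `R3/FF.lean` for `K3:0,1,02`).  `NoPat G m'` for a number `m'` which depends on `m`: the types `(f,f,f)`, `(t,f,f)`, `(t,t,t)` by `NoT`,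
`(f,t,f)` by `NoTP.swap`, `(f,f,t)` by `Rep.killR`, `(t,t,f)` by `Rep.killJ` (their numbers for any `β`; these two theorems need no `Link`: they are proved by `kill_of_model`, whose `c₀` is `0`; use the underlying statements `TP → IsIndMinor J4 G` in `Rep/RowX2.lean`).
`ST.S_Start` for `m'`, `ST.S_H1`, `ST.S_H2`; `r₀`, `r₁` at least `1`: `Hy1`, `Hy2` are monotone in the number (`TP.mono`).  `S_Rf`, then `S_La`. -/
def S_En : Prop := ∀ m : ℕ, ∃ w p k q r₀ r₁ : ℕ, ∀ (V : Type) [Finite V] (G : SimpleGraph V),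
  ¬ IMS H41 G Set.univ → ¬ IMS J4 G Set.univ →
  NoT {(false, false, false), (true, false, false), (true, true, true)} m G →
  ∃ (B : Set V) (f : V → ℕ), Env G B f w p k q r₀ r₁

/-! ## 2. Good indices -/

/-- **R1** (80 lines).  The vertices outside `KM (M i)` are constant on `M i`, for all but less than `k` indices.

Proof. `I = {i < n | ∃ y ∈ B, y ∉ KM (M i), ¬ Cst G y (M i)}`; for `i ∈ I` choose such a `y i`.  Let `M i = Dn x`, `x ∈ B` (`Fam.ex`), `y = y i`; `y` is adjacent to some element of `M i` and not adjacent to another one, so `Dn y ∩ M i ≠ ∅`, `M i ⊄ Dn y`; `x ≠ y` (`x ∈ KM (M i)`).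
If `y ~ x`: `Rul.lam` gives `Dn y ⊆ M i` and `y ∈ KM (M i)`: contradiction.  So `y ≁ x` and `Rul.cov` gives (1) `Zc j ⊆ Dn y ∪ M i`.  Let `i, i' ∈ I`, `i ≠ i'`, `y = y i`, `y' = y i'`.  By (1) `M i' ⊆ Dn y`, `M i ⊆ Dn y'` (disjoint sets in `Zc j`), while `M i ⊄ Dn y`, `M i' ⊄ Dn y'`: so
`Dn y ⊄ Dn y'`, `Dn y' ⊄ Dn y`, and `Dn y ∩ Dn y' ⊇ Dn y ∩ M i ≠ ∅`.  By `Rul.lam` `y ≁ y'`, and `y ≠ y'`.  So the `y i`, `i ∈ I`, are a stable set of `B` with `|I|` elements: `Bas.ns`. -/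
def S_R1 : Prop := ∀ (V : Type) [Finite V] (G : SimpleGraph V) (B : Set V) (f : V → ℕ)
  (w p k q r₀ r₁ j n : ℕ) (M : ℕ → Set V), Env G B f w p k q r₀ r₁ → Fam G B f j n M →
  ∃ I : Set ℕ, I.Finite ∧ I.ncard < k ∧ ∀ i < n, i ∉ I → ∀ y ∈ B, y ∉ KM G B f j (M i) →
    Cst G y (M i)

/-- **R2** (60 lines).  Few rows over `B`.  (Uses `ST.S_Gr`.)

Proof. `S_Gr` with `r = r₁`, `T = Set V`, `S i = {nB G B y | y ∈ KM (M i), f y = a}`.  Suppose that there are `φ`, `v` as in the hypothesis of `S_Gr`: for `i < r₁` let `x i ∈ KM (M (φ i))`, `f (x i) = a`, `nB G B (x i) = v i`, and `z i ∈ Dn (x i) ⊆ M (φ i)`.  `Hy1` for `x`, `z`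
(functions on `ℕ`: choose with a dependent `if`; `V` is not empty as `r₁ ≥ 1`): `TP G r₁ true false true x z`: `x i ∈ B`, `z i ∉ B`; the `z i` are in the disjoint sets `M (φ i)`, so different; the `x i` are different as the `v i` are; `Bas.cl`, `Bas.stb`; `x i ≁ z i`, and `x i ~ z i'` for
`i ≠ i'`, since `z i' ∈ Zc j` is in `M (φ i')`, not in `M (φ i) ⊇ Dn (x i)`. -/
def S_R2 : Prop := ST.S_Gr → ∀ (V : Type) [Finite V] (G : SimpleGraph V) (B : Set V) (f : V → ℕ)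
  (w p k q r₀ r₁ j n : ℕ) (M : ℕ → Set V), Env G B f w p k q r₀ r₁ → Fam G B f j n M → ∀ a : ℕ,
  ∃ (I : Set ℕ) (N : Set (Set V)), I.Finite ∧ I.ncard < r₁ ∧ N.ncard < r₁ ∧ ∀ i < n, i ∉ I →
    ∀ y ∈ KM G B f j (M i), f y = a → nB G B y ∈ N

/-- **R3** (60 lines).  Few rows over a class `l` which is complete to the class `j`.  (Uses `ST.S_Gr`.)

Proof. As `S_R2` with `r = r₀`, `S i = {{z | z ∈ Zc l ∧ G.Adj y z} | y ∈ KM (M i), f y = a}` and `Hy2` for `x`, `z`, `Y = Zc l` (stable by `Bas.stb`; `y ∉ B`, so `y ≠ x i`; `z i ∈ Zc j` is adjacent to `y ∈ Zc l`); the rows `v i ≠ v i'` give an element of `Zc l` adjacent to exactly one of `x i`, `x i'`. -/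
def S_R3 : Prop := ST.S_Gr → ∀ (V : Type) [Finite V] (G : SimpleGraph V) (B : Set V) (f : V → ℕ)
  (w p k q r₀ r₁ j n : ℕ) (M : ℕ → Set V), Env G B f w p k q r₀ r₁ → Fam G B f j n M →
  ∀ a l : ℕ, (∀ x ∈ Zc B f j, ∀ y ∈ Zc B f l, G.Adj x y) →
  ∃ (I : Set ℕ) (N : Set (Set V)), I.Finite ∧ I.ncard < r₀ ∧ N.ncard < r₀ ∧ ∀ i < n, i ∉ I →
    ∀ y ∈ KM G B f j (M i), f y = a → {z | z ∈ Zc B f l ∧ G.Adj y z} ∈ N

/-- **Ro** (150 lines).  All but boundedly many indices are good.  (Uses `S_R1`, `S_R2`, `S_R3`, `ST.S_Gr`.)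

Proof. `R₀ = (w * r₁) * (w * r₀ + 2) ^ p`, `N₀ = k + w * r₁ + w * p * r₀ + 1`.  If `n ≤ 1` take `I = {0}`, `R = ∅`.  Let `n ≥ 2`.  `I₁` from `S_R1`.  For `a < w`: `I₂ a`, `Φ a` from `S_R2`.  For `a < w`, `l < p`, `l ≠ j` such that `Zc j` is complete to `Zc l`: `I₃ a l`, `Ψ a l` from `S_R3` (otherwise `∅`, `∅`).
`I` = the union of these sets, it has at most `N₀` elements.  `Φ = ⋃ a, Φ a` (at most `w * r₁` elements), `Ψ l = {∅, Zc l} ∪ ⋃ a, Ψ a l` (at most `w * r₀ + 2` elements).  `R = {ρ | ρ ∩ B ∈ Φ ∧ ∀ l < p, ρ ∩ Zc l ∈ Ψ l}`: the map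
`ρ ↦ (ρ ∩ B, l ↦ ρ ∩ Zc l)` (to `Φ × ∀ l : Fin p, Ψ l`) is injective on `R` (every vertex outside `B` is in some `Zc l`, `l < p`: `Bas.fA`), so `R` has at most `R₀` elements.
`cst`: `S_R1`.  `row`: let `i < n`, `i ∉ I`, `y ∈ KM (M i)`; `ρ = nB G B y ∪ {v | v ∉ B ∧ f v ≠ j ∧ G.Adj y v} ∪ Zc j`.  `ρ ∩ B = nB G B y ∈ Φ (f y)` (`f y < w`: `Bas.fB`); `ρ ∩ Zc j = Zc j`; for `l ≠ j`, `ρ ∩ Zc l = {z | z ∈ Zc l ∧ G.Adj y z}`: by `Bas.tw` (twice) `Zc j` is complete to `Zc l`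
(then `Ψ (f y) l`) or anticomplete: then by `Rul.mix` `y` is constant on `Zc l` (so `∅` or `Zc l`), since `y` is not constant on `Zc j`: it is not adjacent to an element of `Dn y`, and adjacent to the elements of `M i'`, `i' ≠ i` (`i' = 0` or `1`), which are in `Zc j` and not in
`M i ⊇ Dn y`.  For `v ∉ M i`, `v ≠ y`: `v ∈ B`: `v ∈ nB y` iff `y ~ v`; `v ∈ Zc j`: `v ∉ Dn y`, so `y ~ v`; the other `v`: clear. -/
def S_Ro : Prop := ∀ w p k r₀ r₁ : ℕ, ∃ N₀ R₀ : ℕ, ∀ (V : Type) [Finite V] (G : SimpleGraph V)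
  (B : Set V) (f : V → ℕ) (q j n : ℕ) (M : ℕ → Set V), Env G B f w p k q r₀ r₁ →
  Fam G B f j n M → ∃ (I : Set ℕ) (R : Set (Set V)), I.Finite ∧ I.ncard ≤ N₀ ∧ R.ncard ≤ R₀ ∧
    Gd G B f j n M I R

/-! ## 3. Cells -/

/-- **Cr** (60 lines).  The cut-rank of a good cell.

Proof. `X = M i ∪ KM (M i)`.  `H1T.rk_le_rows`: it is enough that `H1T.Rw G X Xᶜ` has at most `R.ncard + 1` elements.  It is contained in `{P} ∪ {ρ ∩ Xᶜ | ρ ∈ R}`, where `P = {b ∉ X | G.Adj u b}` for one fixed `u ∈ M i`: for `u' ∈ M i` and `b ∉ X` we have `G.Adj u' b ↔ G.Adj u b`: if `b ∈ B` then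
`b ∉ KM (M i)` and `Gd.cst`; if `b ∉ B` then `Bas.tw` (`u`, `u'` are in `Zc j`, as `M i = Dn x`).  For `y ∈ KM (M i)` and `b ∉ X`: `b ∉ M i`, `b ≠ y`: `Gd.row`. -/
def S_Cr : Prop := ∀ (V : Type) [Finite V] (G : SimpleGraph V) (B : Set V) (f : V → ℕ)
  (w p k q r₀ r₁ j n : ℕ) (M : ℕ → Set V) (I : Set ℕ) (R : Set (Set V)),
  Env G B f w p k q r₀ r₁ → Fam G B f j n M → Gd G B f j n M I R → ∀ i < n, i ∉ I →
    LK.cr G (M i ∪ KM G B f j (M i)) ≤ R.ncard + 1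

/-- **Mx** (80 lines).  The maximal small sets.

Proof. `𝓢 = {Dn y | y ∈ B, Dn y ≠ ∅, |Dn y| ≤ b}`.  Two elements `Dn x`, `Dn y` of `𝓢` are nested or disjoint: `Rul.lam` if `x ~ y`, `Rul.cov` if not (`Zc j ⊆ Dn x ∪ Dn y` is impossible, as `|Zc j| > 2 b`).  `𝓜` = the maximal elements of `𝓢` (for inclusion; `𝓢` is finite): pairwise
disjoint, and every element of `𝓢` is contained in one of them (`Set.Finite.exists_le_maximal`).  Enumerate the finite set `𝓜`: `n = 𝓜.ncard` and a bijection of `Fin n` with `𝓜` (`Finite.equivFin`), `M i = ∅` for `i ≥ n`. -/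
def S_Mx : Prop := ∀ (V : Type) [Finite V] (G : SimpleGraph V) (B : Set V) (f : V → ℕ) (j b : ℕ),
  Rul G B f → 2 * b < (Zc B f j).ncard → ∃ (n : ℕ) (M : ℕ → Set V), Fam G B f j n M ∧
    (∀ i < n, (M i).ncard ≤ b) ∧ ∀ y ∈ B, (Dn G B f j y).Nonempty → (Dn G B f j y).ncard ≤ b →
      ∃ i < n, Dn G B f j y ⊆ M i

/-- **Se** (150 lines).  The choice of the cells.  (Uses `S_Ro`, `S_Cr`, `S_Mx`.)

Proof. `N₀`, `R₀` from `S_Ro`; `N = N₀ + 1`, `R₁ = R₀`, the number for `MC` is `c₁ = R₀ + 1`.  (1) Let `Fam G B f j n M` and `I`, `R` from `S_Ro`.  For two different good `i, i' < n` the sets `M i ∪ KM (M i)`, `M i' ∪ KM (M i')` are disjoint (`M i ⊆ Bᶜ`; `y ∈ KM (M i) ∩ KM (M i')` would have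
`∅ ≠ Dn y ⊆ M i ∩ M i'`), and by `S_Cr` their cut-rank is at most `c₁`.  So by `MC` not both have more than `b` elements (`(M i' ∪ ..) ⊆ (M i ∪ ..)ᶜ`).  (2) `Few G B f b N`: if `b < |M i|` for all `i < n` then at most one index is outside `I`, so `n ≤ N₀ + 1`.  (3) For `j < p` with `2 b < |Zc j|`: `n j`, `M j` from
`S_Mx`, `I' j`, `R j` from `S_Ro`, `I j = I' j ∪ {i < n j | i ∉ I' j, b < |M i ∪ KM (M i)|}` (the second set has at most one element by (1)).  For the other `j`: `n j = 0`, `I j = ∅`, `R j = ∅` (for `j ≥ p` `Zc j = ∅`, so `2 b < |Zc j|` is false).  `R = ⋃ j < p, R j` has at most `p * R₀`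
elements; `Gd` is monotone in `R`, and in `I`. -/
def S_Se : Prop := ∀ w p k r₀ r₁ : ℕ, ∃ N R₁ c₁ : ℕ, ∀ (V : Type) [Finite V] (G : SimpleGraph V)
  (B : Set V) (f : V → ℕ) (q b : ℕ), Env G B f w p k q r₀ r₁ → MC G c₁ b →
  Few G B f b N ∧ ∃ (n : ℕ → ℕ) (M : ℕ → ℕ → Set V) (I : ℕ → Set ℕ) (R : Set (Set V)),
    R.ncard ≤ p * R₁ ∧ Sel G B f b N n M I R

/-! ## 4. No thick spiders outside the cells -/

/-- **Ts** (150 lines).  No large thick spider off the cells.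

Proof. `m₀ = (N + 1) * (b + 1) + N + 2 * b + 2`, `n₁` = the number of `W.ramC`-free pigeonhole: `n₁ = k + q + w * p * m₀ + 1`.  Suppose `TP (G.induce S) n₁ true false true c s` (write `c i`, `s i` for the vertices of `G`).  The `c i ∉ B` form a clique outside `B`: less than `q` of them (`Bas.nc`); the `s i ∈ B` form a
stable set in `B`: less than `k` (`Bas.ns`).  So there are at least `w * p * m₀ + 1` indices with `c i ∈ B`, `s i ∉ B`; by pigeonhole (`f (c i) < w`, `f (s i) < p`) there are `m₀` indices `σ 0, .., σ (m₀ - 1)` with the same `a = f (c i)`, `j = f (s i)`.  `T i = Dn (c (σ i))` contains `s (σ i)` and no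
other `s (σ i')`; `Rul.lam` (the `c`'s are adjacent): the `T i` are pairwise disjoint.  (1) At most `N` indices have `|T i| > b`: `Few` (enumerate them).  (2) If `|Zc j| ≤ 2 b` then `m₀ ≤ 2 b`, as the `s (σ i) ∈ Zc j` are different.  (3) Otherwise let `|T i| ≤ b`: `Sel.all`: `T i ⊆ M j h`, `h < n j`, so
`c (σ i) ∈ KM (M j h)`, and by `Off` `h ∈ I j`: `s (σ i)` is in the union of the `M j h`, `h ∈ I j`, which has at most `N * b` elements.  So `m₀ ≤ N + N * b`.  Contradiction. -/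
def S_Ts : Prop := ∀ w p k q b N : ℕ, ∃ n₁ : ℕ, ∀ (V : Type) [Finite V] (G : SimpleGraph V)
  (B : Set V) (f : V → ℕ) (r₀ r₁ : ℕ) (n : ℕ → ℕ) (M : ℕ → ℕ → Set V) (I : ℕ → Set ℕ)
  (R : Set (Set V)), Env G B f w p k q r₀ r₁ → Few G B f b N → Sel G B f b N n M I R →
  ∀ S : Set V, Off G B f n M I S → NoTP (G.induce S) n₁ true false true

/-! ## 5. Lifting layouts -/

/-- **Hr** (100 lines).  The rank of a cut after adding the vertices outside `S`.

Proof. `π' v = v` for `v ∈ S`, `π v` otherwise; `hat S π A = {v | π' v ∈ A}` for `A ⊆ S`.  Let `P = hat A`, `Q = hat A'` (disjoint).  `rk P Q ≤ rk (P \ F) (Q \ F) + rk (P ∩ F) Q + rk P (Q ∩ F)` (`rk_union`, `rk_union_right`, `rk_mono`).  Every `x ∈ P ∩ F` has the trace `ρ ∩ Q` on `Q`, `ρ ∈ R` (`hrow`: for `v ∈ Q`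
`π' v ≠ π' x`, as `A`, `A'` are disjoint): `rk (P ∩ F) Q ≤ R.ncard` (`(LK.a1 V D).2.2.2.2.2` with the set of the `ρ ∩ Q`; `Set.ncard_image_le`), and by `rk_symm` `rk P (Q ∩ F) ≤ R.ncard`.  `rk (P \ F) (Q \ F) ≤ rk A A'`: the row of `v ∈ P \ F` on `Q \ F` is the row of `π' v ∈ A` (`htw`; `π' v ∉ F`, as `S` and `F`
are disjoint), so `rk (P \ F) (Q \ F) ≤ rk A (Q \ F)` (the span becomes larger, see `twRk1` in `ON/Tw.lean`), and in the same way, after `rk_symm`, `rk A (Q \ F) ≤ rk A A'`. -/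
def S_Hr : Prop := ∀ (V : Type) [Finite V] (D : SimpleGraph V) (S F : Set V) (π : V → V)
  (R : Set (Set V)), (∀ v ∉ S, π v ∈ S) → (∀ v ∈ S, π v = v) → Disjoint S F →
  (∀ v, v ∉ F → ∀ u, u ∉ F → π v ≠ π u → (D.Adj v u ↔ D.Adj (π v) u)) →
  (∀ x ∈ F, ∃ ρ ∈ R, ∀ v, π v ≠ π x → (D.Adj x v ↔ v ∈ ρ)) →
  ∀ A A' : Set V, ON.Pt S A A' →
    LK.rk D (ON.hat S π A) (ON.hat S π A') ≤ LK.rk D A A' + 2 * R.ncard

/-- **Lf** (150 lines).  A set of representatives.  (Uses `S_Hr`, `ON.S_RI`, `ON.S_LX`, `ON.S_LS`.)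

Proof. `F` = the union of the cells `KM (M j i)`, `i < n j`, `i ∉ I j`.  For every `j`, `i` with `i < n j`, `i ∉ I j` choose `s j i ∈ M j i`.  `π : V → V`: for `x ∈ F` choose `j`, `i` with `x ∈ KM (M j i)` and let `π x = s j i`; for `x ∉ F`, `x ∈ M j i` for a good `i` (`j = f x`, and `i` is unique by `Fam.dj`): `π x = s j i`; otherwise
`π x = x`.  `S = {x | π x = x}`.  (1) `F ∩ S = ∅` (`F ⊆ B`, `s j i ∉ B`), so `Off .. S`.  (2) `s j i ∉ F`, `π (s j i) = s j i ∈ S`; so `π x ∈ S` for all `x`.  (3) `htw`: let `v, u ∉ F`, `π v ≠ π u`.  If `π v = v` clear; otherwise `v, π v ∈ M j i`, `i` good, `u ∉ M j i` (otherwise `π u = π v`).  If `u ∈ B`: `u ∉ KM (M j i)`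
as `u ∉ F`, and `Gd.cst`.  If `u ∉ B`: `Bas.tw`.  (4) `hrow`: `x ∈ F`, `π x = s j i`, `x ∈ KM (M j i)`; `v` with `π v ≠ s j i`: `v ∉ M j i` (an element `v` of `M j i` is not in `F` and `π v = s j i`), `v ≠ x`: `Gd.row`.  So `S_Hr` gives the bound `k + 2 * R.ncard` for the cuts.  (5) Fibres: `hat S π {v}` for `v ∈ S`:
if `v = s j i` (good) then it is contained in `M j i ∪ KM (M j i)` (`x` with `π x = s j i`: `x = s j i`, or `x ∈ M j' i'` or `x ∈ KM (M j' i')` with `s j' i' = s j i`, so `j' = j` (`f`) and `i' = i` (disjoint)), so at most `b` elements; otherwise it is `{v}`.  `ON.S_LS` for `max b 1`.  `ON.S_LX` with `k' = b + 1`,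
`g = k₀ + 2 * R.ncard`. -/
def S_Lf : Prop := ON.S_RI → ON.S_LX → ON.S_LS → S_Hr → ∀ (V : Type) [Finite V]
  (G : SimpleGraph V) (B : Set V) (f : V → ℕ) (w p k q r₀ r₁ b N : ℕ) (n : ℕ → ℕ)
  (M : ℕ → ℕ → Set V) (I : ℕ → Set ℕ) (R : Set (Set V)), Env G B f w p k q r₀ r₁ →
  Sel G B f b N n M I R → ∃ S : Set V, Off G B f n M I S ∧
    ∀ k₀ : ℕ, Lay (G.induce S) k₀ Set.univ → Lay G (2 ^ (k₀ + 2 * R.ncard) + (b + 1)) Set.univ

/-! ## 6. The theorem -/

/-- **Tp** (60 lines).  The thick spiders can be removed.  (Uses `S_En`, `S_Se`, `S_Ts`, `S_Lf` (with its hypotheses).)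

Proof. `w, .., r₁` from `S_En` for `m`; `N`, `R₁`, `c₁` from `S_Se`; `b = β c₁`; `n₁` from `S_Ts`; `c₀ = c₁` and `k' = 2 ^ (k + 2 * (p * R₁)) + (b + 1)` (`Lay.mono`).  `Link β c₀ G` gives `MC G c₁ (β c₁)`. -/
def S_Tp : Prop := ∀ (m : ℕ) (β : ℕ → ℕ), ∃ n : ℕ, ∀ k : ℕ, ∃ c₀ k' : ℕ, ∀ (V : Type) [Finite V]
  (G : SimpleGraph V), Rep.Fr H41 J4 G →
  NoT {(false, false, false), (true, false, false), (true, true, true)} m G → Link β c₀ G →
  ∃ S : Set V, NoTP (G.induce S) n true false true ∧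
    (Lay (G.induce S) k Set.univ → Lay G k' Set.univ)

end Pool.Agent.MPd439b2.P41
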